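import Mathlib

namespace Pool.Agent.H.MP_5b0e2c_al

open HNNExtension

variable {G : Type} [Group G] {A B : Subgroup G} (φ : A ≃* B)

abbrev HH (A B : Subgroup G) (u : ℤˣ) : Subgroup G := toSubgroup A B u

def pr (h : G) (l : List (ℤˣ × G)) : HNNExtension G A B φ :=
  of h * (l.map (fun x => t ^ (x.1 : ℤ) * of x.2)).prod

def Ch (A B : Subgroup G) (l : List (ℤˣ × G)) : Prop :=
  l.IsChain (fun a b => a.2 ∈ HH A B a.1 → a.1 = b.1)

theorem pr_nil (h : G) : pr φ h [] = of h := by simp [pr]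

theorem pr_cons (h : G) (u : ℤˣ) (g : G) (l) :
    pr φ h ((u, g) :: l) = of h * t ^ (u : ℤ) * pr φ g l := by simp [pr, mul_assoc]

theorem pr_mul (c h : G) (l) : pr φ (c * h) l = of c * pr φ h l := by simp [pr, mul_assoc]

theorem pr_concat (h : G) (l) (u : ℤˣ) (g : G) :
    pr φ h (l ++ [(u, g)]) = pr φ h l * t ^ (u : ℤ) * of g := by simp [pr, mul_assoc]

noncomputable def th (u : ℤˣ) (c : G) (hc : c ∈ HH A B u) : G := toSubgroupEquiv φ u ⟨c, hc⟩

theorem th_mem (u : ℤˣ) (c : G) (hc : c ∈ HH A B u) : th φ u c hc ∈ HH A B (-u) :=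
  (toSubgroupEquiv φ u ⟨c, hc⟩).2

theorem t_th (u : ℤˣ) (c : G) (hc : c ∈ HH A B u) :
    (t ^ (u : ℤ) * of c : HNNExtension G A B φ) = of (th φ u c hc) * t ^ (u : ℤ) := by
  rcases Int.units_eq_one_or u with rfl | rfl
  · have := t_mul_of (φ := φ) ⟨c, hc⟩
    simp only [Units.val_one, zpow_one]
    exact this
  · have := inv_t_mul_of (φ := φ) ⟨c, hc⟩
    simp only [Units.val_neg, Units.val_one, zpow_neg, zpow_one]
    exact this

theorem pr_eq {h h' : G} {l l'} (c : Ch A B l) (c' : Ch A B l') (e : pr φ h l = pr φ h' l') :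
    l.map Prod.fst = l'.map Prod.fst ∧ ∀ a ∈ l.head?, h⁻¹ * h' ∈ HH A B (-a.1) := by
  have := ReducedWord.map_fst_eq_and_of_prod_eq φ (w₁ := ⟨h, l, c⟩) (w₂ := ⟨h', l', c'⟩) e
  refine ⟨this.1, fun a ha => this.2 a.1 ?_⟩
  simp only [Option.mem_def] at ha ⊢
  simp [ha]

theorem pr_len {h h' : G} {l l'} (c : Ch A B l) (c' : Ch A B l') (e : pr φ h l = pr φ h' l') :
    l.length = l'.length := by
  simpa using congrArg List.length (pr_eq φ c c' e).1

theorem ch_nil : Ch A B [] := List.isChain_nil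

theorem ch_tail {a} {l : List (ℤˣ × G)} (c : Ch A B (a :: l)) : Ch A B l := List.IsChain.tail c

theorem ch_cons {a} {l : List (ℤˣ × G)} (c : Ch A B l)
    (h : ∀ b ∈ l.head?, a.2 ∈ HH A B a.1 → a.1 = b.1) : Ch A B (a :: l) := by
  cases l with
  | nil => exact List.isChain_singleton _
  | cons b l => exact List.IsChain.cons_cons (h b rfl) c

theorem ch_head {a b} {l : List (ℤˣ × G)} (c : Ch A B (a :: b :: l)) :
    a.2 ∈ HH A B a.1 → a.1 = b.1 := (List.isChain_cons_cons.1 c).1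

theorem un (u v : ℤˣ) : u = v ∨ u = -v := by
  rcases Int.units_eq_one_or u with rfl | rfl <;> rcases Int.units_eq_one_or v with rfl | rfl <;>
    simp

theorem un_ne (u : ℤˣ) : u ≠ -u := by
  rcases Int.units_eq_one_or u with rfl | rfl <;> decide

def J (A B : Subgroup G) (h : G) (l : List (ℤˣ × G)) (h' : G) (l' : List (ℤˣ × G)) : Prop :=
  ∀ a ∈ l.head?, ∀ b ∈ l'.head?, h⁻¹ * h' ∈ HH A B (-a.1) → -a.1 = b.1

theorem revApp : ∀ (l : List (ℤˣ × G)) (h h' : G) (l' : List (ℤˣ × G)), Ch A B l → Ch A B l' →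
    J A B h l h' l' → ∃ h'' pre, Ch A B (pre ++ l') ∧
      pr φ h'' (pre ++ l') = (pr φ h l)⁻¹ * pr φ h' l' ∧ pre.length = l.length ∧
      ∀ a ∈ l.getLast?, h'' = a.2⁻¹ ∧ ∃ d rest, pre = (-a.1, d) :: rest
  | [], h, h', l', _, c', _ => ⟨h⁻¹ * h', [], c', by simp [pr_mul, pr_nil], rfl, by simp⟩
  | (u, g) :: l, h, h', l', c, c', j => by
    obtain ⟨h'', pre, k1, k2, k3, k4⟩ := revApp l g 1 ((-u, h⁻¹ * h') :: l') (ch_tail c)
      (ch_cons c' (fun b hb => j (u, g) rfl b hb)) (by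
        intro a ha b hb hm
        obtain rfl : (-u, h⁻¹ * h') = b := by simpa using hb
        cases l with
        | nil => simp at ha
        | cons a' l =>
          obtain rfl : a' = a := by simpa using ha
          rcases un u a'.1 with e | e
          · simp [e]
          · have := ch_head c
            simp only at this
            rw [← e] at hm
            rw [this (by simpa using hm)])
    refine ⟨h'', pre ++ [(-u, h⁻¹ * h')], by simpa using k1, ?_, by simp [k3], ?_⟩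
    · rw [List.append_assoc, List.singleton_append, k2, pr_cons, pr_cons, pr_mul]
      simp [mul_assoc]
    · intro a ha
      cases l with
      | nil =>
        obtain rfl : (u, g) = a := by simpa using ha
        obtain rfl : pre = [] := by simpa using k3
        refine ⟨?_, _, _, rfl⟩
        have e : pr φ h'' ((-u, h⁻¹ * h') :: l') = pr φ g⁻¹ ((-u, h⁻¹ * h') :: l') := by
          rw [← List.nil_append ((-u, h⁻¹ * h') :: l'), k2]
          simp [pr]
        simp only [pr] at e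
        exact of_injective φ (mul_right_cancel e)
      | cons a' l =>
        obtain ⟨e1, d, rest, rfl⟩ := k4 a (by simpa [List.getLast?_cons_cons] using ha)
        exact ⟨e1, d, _, rfl⟩

theorem ex_word (g : HNNExtension G A B φ) : ∃ h l, pr φ h l = g := by
  rcases NormalWord.TransversalPair.nonempty G A B with ⟨d⟩
  obtain ⟨w, hw⟩ := (NormalWord.equiv φ d).symm.surjective g
  exact ⟨w.head, w.toList, hw⟩

theorem ex_red : ∀ (l : List (ℤˣ × G)) (h : G), ∃ h' l', Ch A B l' ∧ pr φ h' l' = pr φ h l ∧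
    l'.length ≤ l.length
  | [], h => ⟨h, [], ch_nil, rfl, le_rfl⟩
  | (u, c) :: l, h => by
    obtain ⟨c1, l1, k1, k2, k3⟩ := ex_red l c
    by_cases hp : ∀ b ∈ l1.head?, c1 ∈ HH A B u → u = b.1
    · exact ⟨h, (u, c1) :: l1, ch_cons k1 hp, by rw [pr_cons, pr_cons, k2], by simpa using k3⟩
    · push Not at hp
      obtain ⟨b, hb, hc, hu⟩ := hp
      cases l1 with
      | nil => simp at hb
      | cons b' l2 =>
        obtain rfl : b' = b := by simpa using hb
        obtain ⟨u', g⟩ := b'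
        obtain rfl : u' = -u := ((un u' u).resolve_left (fun e => hu e.symm))
        refine ⟨h * th φ u c1 hc * g, l2, ch_tail k1, ?_, by simp at k3 ⊢; omega⟩
        rw [pr_cons, ← k2, pr_cons, pr_mul, map_mul, mul_assoc (of h), mul_assoc (of h),
          ← mul_assoc (t ^ (u : ℤ)), ← mul_assoc (t ^ (u : ℤ)), t_th φ u c1 hc]
        simp [mul_assoc]

def Cyc (A B : Subgroup G) (h : G) (l : List (ℤˣ × G)) : Prop :=
  ∀ a ∈ l.getLast?, ∀ b ∈ l.head?, a.2 * h ∈ HH A B a.1 → a.1 = b.1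

theorem ex_cyc_aux : ∀ (n : ℕ) (l : List (ℤˣ × G)) (h : G), l.length ≤ n →
    ∃ γ h' l', Ch A B l' ∧ Cyc A B h' l' ∧ γ * pr φ h l * γ⁻¹ = pr φ h' l'
  | 0, l, h, hl => by
    obtain rfl : l = [] := by simpa using hl
    exact ⟨1, h, [], ch_nil, by simp [Cyc], by simp⟩
  | n + 1, l, h, hl => by
    obtain ⟨h1, l1, k1, k2, k3⟩ := ex_red φ l h
    by_cases hc : Cyc A B h1 l1
    · exact ⟨1, h1, l1, k1, hc, by simp [k2]⟩
    · simp only [Cyc] at hc
      push Not at hc
      obtain ⟨a, ha, b, hb, hm, hne⟩ := hc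
      cases l1 with
      | nil => simp at hb
      | cons b' l2 =>
        obtain rfl : b' = b := by simpa using hb
        rcases List.eq_nil_or_concat l2 with rfl | ⟨l3, a', rfl⟩
        · obtain rfl : b' = a := by simpa using ha
          exact absurd rfl hne
        · obtain rfl : a' = a := by simpa [List.getLast?_cons] using ha
          obtain ⟨u, g⟩ := b'
          obtain ⟨v, c⟩ := a'
          simp only at hm hne
          obtain rfl : u = -v := (un u v).resolve_left (fun e => hne e.symm)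
          obtain ⟨γ, h', l', j1, j2, j3⟩ := ex_cyc_aux n l3 (th φ v _ hm * g)
            (by simp at k3; omega)
          refine ⟨γ * (t ^ (v : ℤ) * of c), h', l', j1, j2, ?_⟩
          rw [← j3, ← k2, pr_cons, List.concat_eq_append, pr_concat, pr_mul]
          have := t_th φ v _ hm
          rw [map_mul] at this
          have e2 : (of (th φ v _ hm) : HNNExtension G A B φ) =
              t ^ (v : ℤ) * (of c * of h1) * (t ^ (v : ℤ))⁻¹ := by rw [this]; simp
          rw [e2]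
          simp [mul_assoc]

theorem ex_cyc (g : HNNExtension G A B φ) :
    ∃ γ h l, Ch A B l ∧ Cyc A B h l ∧ γ * g * γ⁻¹ = pr φ h l := by
  obtain ⟨h, l, rfl⟩ := ex_word φ g
  exact ex_cyc_aux φ _ l h le_rfl

theorem cyc_J {h : G} {l : List (ℤˣ × G)} (hc : Cyc A B h l) {a} (ha : a ∈ l.getLast?) (d : G)
    (rest) : J A B h l a.2⁻¹ ((-a.1, d) :: rest) := by
  intro b hb b' hb' hm
  obtain rfl : (-a.1, d) = b' := by simpa using hb'
  rcases un a.1 b.1 with e | e
  · simp [e]
  · rw [← e] at hm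
    rw [hc a ha b hb (by simpa using (HH A B a.1).inv_mem hm)]

theorem hyp_pow {h : G} {l : List (ℤˣ × G)} (c : Ch A B l) (hc : Cyc A B h l) {a}
    (ha : a ∈ l.getLast?) (m : ℕ) : ∃ d rest, Ch A B ((-a.1, d) :: rest) ∧
      pr φ a.2⁻¹ ((-a.1, d) :: rest) = (pr φ h l)⁻¹ ^ (m + 1) := by
  induction m with
  | zero =>
    obtain ⟨h'', pre, k1, k2, -, k4⟩ := revApp φ l h 1 [] c ch_nil (by simp [J])
    obtain ⟨rfl, d, rest, rfl⟩ := k4 a ha
    exact ⟨d, rest, by simpa using k1, by simpa [pr_nil] using k2⟩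
  | succ m ih =>
    obtain ⟨d, rest, j1, j2⟩ := ih
    obtain ⟨h'', pre, k1, k2, -, k4⟩ := revApp φ l h _ _ c j1 (cyc_J hc ha d rest)
    obtain ⟨rfl, d', rest', rfl⟩ := k4 a ha
    exact ⟨d', _, k1, by rw [pow_succ' _ (m + 1), ← j2, ← k2]; rfl⟩

theorem torsion (g : HNNExtension G A B φ) (hg : IsOfFinOrder g) :
    ∃ γ h, γ * g * γ⁻¹ = of h := by
  obtain ⟨γ, h, l, c, hc, e⟩ := ex_cyc φ g
  rcases List.eq_nil_or_concat l with rfl | ⟨l3, a, rfl⟩
  · exact ⟨γ, h, by rw [e, pr_nil]⟩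
  · exfalso
    obtain ⟨n, hn, hgn⟩ := hg.exists_pow_eq_one
    obtain ⟨m, rfl⟩ : ∃ m, n = m + 1 := ⟨n - 1, by omega⟩
    obtain ⟨d, rest, j1, j2⟩ := hyp_pow φ c hc (a := a) (by simp) m
    rw [← e, inv_pow, conj_pow, hgn] at j2
    have := pr_len φ (h' := 1) j1 ch_nil (by rw [j2, pr_nil]; simp)
    simp at this

end Pool.Agent.H.MP_5b0e2c_al
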