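import Mathlib
import Pool.Agent.H.MP_5b0e2c_al.A

namespace Pool.Agent.H.MP_5b0e2c_al

open HNNExtension

structure IsW {G X : Type} [Group G] [MulAction G X] (W : X → ℚ → X → Prop) : Prop where
  nonneg : ∀ {x m y}, W x m y → 0 ≤ m
  refl : ∀ x, W x 0 x
  symm : ∀ {x m y}, W x m y → W y m x
  trans : ∀ {x m y m' z}, W x m y → W y m' z → W x (m + m') z
  zero : ∀ {x y}, W x 0 y → x = y
  inv : ∀ (g : G) {x m y}, W x m y → W (g • x) m (g • y)

structure HD (G X ι : Type) [Group G] [MulAction G X] where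
  W : X → ℚ → X → Prop
  a : ι → X
  b : ι → X
  A : Subgroup G
  B : Subgroup G
  φ : A ≃* B
  w : IsW (G := G) W
  ha : Function.Injective a
  hb : Function.Injective b
  hW : ∀ i j m, W (a i) m (a j) ↔ W (b i) m (b j)
  hA : ∀ g, g ∈ A ↔ ∀ i, ∃ j, g • a i = a j
  hφ : ∀ (c : A) i j, (c : G) • a i = a j → (φ c : G) • b i = b j
  hAB : ¬ ∃ g : G, ∀ i, ∃ j, g • a i = b j

namespace HD

variable {G X ι : Type} [Group G] [MulAction G X] (D : HD G X ι)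

def e (u : ℤˣ) : ι → X := if u = 1 then D.a else D.b

theorem e_one : D.e 1 = D.a := rfl
theorem e_neg : D.e (-1) = D.b := rfl

theorem e_inj (u : ℤˣ) : Function.Injective (D.e u) := by
  rcases Int.units_eq_one_or u with rfl | rfl
  · exact D.ha
  · exact D.hb

theorem e_W (u : ℤˣ) {i j m} (h : D.W (D.e u i) m (D.e u j)) :
    D.W (D.e (-u) i) m (D.e (-u) j) := by
  rcases Int.units_eq_one_or u with rfl | rfl
  · exact (D.hW _ _ _).1 h
  · exact (D.hW _ _ _).2 h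

theorem compat (u : ℤˣ) (c : G) (hc : c ∈ HH D.A D.B u) (i : ι) :
    ∃ j, c • D.e u i = D.e u j ∧ th D.φ u c hc • D.e (-u) i = D.e (-u) j := by
  rcases Int.units_eq_one_or u with rfl | rfl
  · obtain ⟨j, hj⟩ := (D.hA c).1 hc i
    exact ⟨j, hj, D.hφ ⟨c, hc⟩ i j hj⟩
  · obtain ⟨j, hj⟩ := (D.hA _).1 (D.φ.symm ⟨c, hc⟩).2 i
    have := D.hφ _ i j hj
    rw [MulEquiv.apply_symm_apply] at this
    exact ⟨j, this, hj⟩

def Rch : G → List (ℤˣ × G) → X → ℚ → X → Prop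
  | h, [], x, m, y => D.W x m (h • y)
  | h, (u, g) :: l, x, m, y => ∃ i m₁ m₂, m = m₁ + m₂ ∧ D.W x m₁ (h • D.e (-u) i) ∧
      Rch g l (D.e u i) m₂ y

variable {D}

theorem Rch.mul (c : G) : ∀ {l h x m y}, D.Rch h l x m y → D.Rch (c * h) l (c • x) m y
  | [], h, x, m, y, H => by
    have := D.w.inv c H
    simpa [Rch, mul_smul] using this
  | (u, g) :: l, h, x, m, y, ⟨i, m₁, m₂, e, h1, h2⟩ =>
    ⟨i, m₁, m₂, e, by simpa [mul_smul] using D.w.inv c h1, h2⟩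

theorem Rch.left : ∀ {l h x m x' m' y}, D.W x m x' → D.Rch h l x' m' y →
    D.Rch h l x (m + m') y
  | [], _, _, _, _, _, _, H, H' => D.w.trans H H'
  | (_, _) :: _, _, _, m, _, _, _, H, ⟨i, m₁, m₂, e, h1, h2⟩ =>
    ⟨i, m + m₁, m₂, by rw [e, add_assoc], D.w.trans H h1, h2⟩

theorem Rch.nonneg : ∀ {l h x m y}, D.Rch h l x m y → 0 ≤ m
  | [], _, _, _, _, H => D.w.nonneg H
  | (_, _) :: _, _, _, _, _, ⟨_, _, _, e, h1, h2⟩ => e ▸ add_nonneg (D.w.nonneg h1) h2.nonneg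

theorem Rch.zero {u g l h x y} (H : D.Rch h ((u, g) :: l) x 0 y) :
    ∃ i, x = h • D.e (-u) i ∧ D.Rch g l (D.e u i) 0 y := by
  obtain ⟨i, m₁, m₂, e, h1, h2⟩ := H
  have a1 := D.w.nonneg h1
  have a2 := h2.nonneg
  obtain rfl : m₁ = 0 := by linarith
  obtain rfl : m₂ = 0 := by linarith
  exact ⟨i, D.w.zero h1, h2⟩

theorem Rch.last : ∀ {l h x y}, D.Rch h l x 0 y → ∀ a ∈ l.getLast?, ∃ i, a.2 • y = D.e a.1 i
  | [], _, _, _, _, a, ha => by simp at ha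
  | [(u, g)], h, x, y, H, a, ha => by
    obtain rfl : (u, g) = a := by simpa using ha
    obtain ⟨i, -, h2⟩ := H.zero
    exact ⟨i, (D.w.zero h2).symm⟩
  | (u, g) :: b :: l, h, x, y, H, a, ha => by
    obtain ⟨i, -, h2⟩ := H.zero
    exact h2.last a (by simpa [List.getLast?_cons_cons] using ha)

variable (D)

theorem red : ∀ (l : List (ℤˣ × G)) (h : G), ∃ h' l', Ch D.A D.B l' ∧
    pr D.φ h' l' = pr D.φ h l ∧ ∀ x m y, D.Rch h l x m y → D.Rch h' l' x m y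
  | [], h => ⟨h, [], ch_nil, rfl, fun _ _ _ H => H⟩
  | (u, c) :: l, h => by
    obtain ⟨c1, l1, k1, k2, k3⟩ := red l c
    by_cases hp : ∀ b ∈ l1.head?, c1 ∈ HH D.A D.B u → u = b.1
    · exact ⟨h, (u, c1) :: l1, ch_cons k1 hp, by rw [pr_cons, pr_cons, k2],
        fun x m y ⟨i, m₁, m₂, e, h1, h2⟩ => ⟨i, m₁, m₂, e, h1, k3 _ _ _ h2⟩⟩
    · push Not at hp
      obtain ⟨b, hb, hc, hu⟩ := hp
      cases l1 with
      | nil => simp at hb
      | cons b' l2 =>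
        obtain rfl : b' = b := by simpa using hb
        obtain ⟨u', g⟩ := b'
        obtain rfl : u' = -u := ((un u' u).resolve_left (fun e => hu e.symm))
        refine ⟨h * th D.φ u c1 hc * g, l2, ch_tail k1, ?_, ?_⟩
        · rw [pr_cons, ← k2, pr_cons, pr_mul, map_mul, mul_assoc (of h), mul_assoc (of h),
            ← mul_assoc (t ^ (u : ℤ)), ← mul_assoc (t ^ (u : ℤ)), t_th D.φ u c1 hc]
          simp [mul_assoc]
        · rintro x m y ⟨i, m₁, m₂, rfl, h1, h2⟩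
          obtain ⟨j, m₃, m₄, rfl, h3, h4⟩ := k3 _ _ _ h2
          obtain ⟨j', e1, e2⟩ := D.compat u c1 hc j
          rw [neg_neg, e1] at h3
          have h5 := D.w.inv h (D.e_W u h3)
          rw [← e2, ← mul_smul h (th D.φ u c1 hc)] at h5
          exact Rch.left h1 (Rch.left h5 (h4.mul _))

theorem RR : ∀ (l : List (ℤˣ × G)) (h h' : G) (l' : List (ℤˣ × G)), Ch D.A D.B l →
    Ch D.A D.B l' → pr D.φ h l = pr D.φ h' l' → ∀ x m y, D.Rch h l x m y → D.Rch h' l' x m y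
  | [], h, h', l', c, c', e, x, m, y, H => by
    obtain rfl : l' = [] := by simpa using (pr_len D.φ c c' e).symm
    rw [pr_nil, pr_nil] at e
    rwa [← of_injective D.φ e]
  | (u, g) :: l, h, h', l', c, c', e, x, m, y, ⟨i, m₁, m₂, em, h1, h2⟩ => by
    obtain ⟨k1, k2⟩ := pr_eq D.φ c c' e
    cases l' with
    | nil => simp at k1
    | cons b l' =>
      obtain ⟨u', g'⟩ := b
      obtain rfl : u = u' := by simp at k1; exact k1.1
      have hm : h'⁻¹ * h ∈ HH D.A D.B (-u) := by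
        simpa using (HH D.A D.B (-u)).inv_mem (k2 (u, g) rfl)
      obtain ⟨j, e1, e2⟩ := D.compat (-u) _ hm i
      have e3 := t_th D.φ (-u) _ hm
      rw [neg_neg] at e2
      refine ⟨j, m₁, m₂, em, ?_, ?_⟩
      · rwa [← e1, ← mul_smul, mul_inv_cancel_left]
      · rw [← e2]
        refine RR l _ g' l' (ch_tail c) (ch_tail c') ?_ _ _ _ (h2.mul _)
        rw [pr_cons, pr_cons] at e
        have e4 : pr D.φ g' l' = (t ^ (u : ℤ))⁻¹ * (of h')⁻¹ * (of h * t ^ (u : ℤ) * pr D.φ g l) := by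
          rw [e]; simp [mul_assoc]
        have e5 : (of (th D.φ (-u) _ hm) : HNNExtension G D.A D.B D.φ) =
            t ^ ((-u : ℤˣ) : ℤ) * of (h'⁻¹ * h) * (t ^ ((-u : ℤˣ) : ℤ))⁻¹ := by rw [e3]; simp
        rw [pr_mul, e4, e5]
        simp [mul_assoc]

abbrev G1 : Type := HNNExtension G D.A D.B D.φ

def Rel (g : D.G1) (x : X) (m : ℚ) (y : X) : Prop := ∃ h l, pr D.φ h l = g ∧ D.Rch h l x m y

variable {D}

theorem Rel.red {h l x m y} (c : Ch D.A D.B l) (H : D.Rel (pr D.φ h l) x m y) :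
    D.Rch h l x m y := by
  obtain ⟨h', l', e, H⟩ := H
  obtain ⟨h2, l2, k1, k2, k3⟩ := D.red l' h'
  exact D.RR _ _ _ _ k1 c (k2.trans e) _ _ _ (k3 _ _ _ H)

theorem rel_of {h x m y} : D.Rel (of h) x m y ↔ D.W x m (h • y) :=
  ⟨fun H => Rel.red (l := []) ch_nil (by rwa [pr_nil]), fun H => ⟨h, [], pr_nil _ _, H⟩⟩

theorem rel_one {x m y} : D.Rel 1 x m y ↔ D.W x m y := by
  rw [← map_one (of : G →* D.G1), rel_of, one_smul]

theorem rel_t (u : ℤˣ) (i : ι) : D.Rel (t ^ (u : ℤ)) (D.e (-u) i) 0 (D.e u i) :=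
  ⟨1, [(u, 1)], by simp [pr], i, 0, 0, by simp, by simpa using D.w.refl _,
    by simpa [Rch] using D.w.refl _⟩

theorem Rch.trans : ∀ {l h x m y g' m' z}, D.Rch h l x m y → D.Rel g' y m' z →
    D.Rel (pr D.φ h l * g') x (m + m') z
  | [], h, x, m, y, _, m', z, H, ⟨h', l', rfl, H'⟩ =>
    ⟨h * h', l', by rw [pr_mul, pr_nil], Rch.left H (H'.mul h)⟩
  | (u, g) :: l, h, x, m, y, g', m', z, ⟨i, m₁, m₂, e, h1, h2⟩, H' => by
    obtain ⟨h3, l3, e3, H3⟩ := h2.trans H'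
    exact ⟨h, (u, h3) :: l3, by rw [pr_cons, pr_cons, e3, mul_assoc _ _ g'], i, m₁, m₂ + m',
      by rw [e, add_assoc], h1, H3⟩

theorem Rel.trans {g x m y g' m' z} (H : D.Rel g x m y) (H' : D.Rel g' y m' z) :
    D.Rel (g * g') x (m + m') z := by
  obtain ⟨h, l, rfl, H⟩ := H
  exact H.trans H'

theorem Rch.symm : ∀ {l h x m y}, D.Rch h l x m y → D.Rel (pr D.φ h l)⁻¹ y m x
  | [], h, x, m, y, H => by
    rw [pr_nil, ← map_inv, rel_of]
    simpa using D.w.inv h⁻¹ (D.w.symm H)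
  | (u, g) :: l, h, x, m, y, ⟨i, m₁, m₂, e, h1, h2⟩ => by
    have a1 := h2.symm
    have a2 := rel_t (D := D) (-u) i
    rw [neg_neg] at a2
    have a3 : D.Rel (of h⁻¹) (D.e (-u) i) m₁ x := by
      rw [rel_of]; simpa using D.w.inv h⁻¹ (D.w.symm h1)
    have := (a1.trans a2).trans a3
    rw [pr_cons, e]
    convert this using 1
    · simp [mul_assoc]
    · ring

theorem Rel.symm {g x m y} (H : D.Rel g x m y) : D.Rel g⁻¹ y m x := by
  obtain ⟨h, l, rfl, H⟩ := H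
  exact H.symm

theorem Rel.nonneg {g x m y} (H : D.Rel g x m y) : 0 ≤ m := by
  obtain ⟨h, l, rfl, H⟩ := H
  exact H.nonneg

variable (D)

def st : Setoid (D.G1 × X) where
  r p q := D.Rel (p.1⁻¹ * q.1) p.2 0 q.2
  iseqv := ⟨fun p => by simpa using rel_one.2 (D.w.refl _),
    fun H => by simpa using H.symm, fun H H' => by simpa [mul_assoc] using H.trans H'⟩

def X1 : Type := Quotient D.st

def pt (g : D.G1) (x : X) : D.X1 := Quotient.mk D.st (g, x)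

theorem mk_eq {g x g' x'} : D.pt g x = D.pt g' x' ↔ D.Rel (g⁻¹ * g') x 0 x' := Quotient.eq

theorem ex_mk (z : D.X1) : ∃ g x, D.pt g x = z := by
  obtain ⟨⟨g, x⟩, rfl⟩ := Quotient.exists_rep z
  exact ⟨g, x, rfl⟩

instance : MulAction D.G1 D.X1 where
  smul g := Quotient.map (fun p => (g * p.1, p.2)) (fun p q H => by
    show D.Rel _ _ _ _
    have : D.Rel _ _ _ _ := H
    simpa [mul_assoc] using this)
  one_smul z := by
    obtain ⟨g, x, rfl⟩ := D.ex_mk z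
    show D.pt (1 * g) x = _
    rw [one_mul]
  mul_smul a b z := by
    obtain ⟨g, x, rfl⟩ := D.ex_mk z
    show D.pt (a * b * g) x = D.pt (a * (b * g)) x
    rw [mul_assoc]

theorem smul_mk (a g : D.G1) (x : X) : a • D.pt g x = D.pt (a * g) x := rfl

def j (x : X) : D.X1 := D.pt 1 x

theorem smul_j (g : D.G1) (x : X) : g • D.j x = D.pt g x := by rw [j, smul_mk, mul_one]

theorem of_j (h : G) (x : X) : (of h : D.G1) • D.j x = D.j (h • x) := by
  rw [smul_j, j, eq_comm, mk_eq, inv_one, one_mul, rel_of]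
  exact D.w.refl _

theorem t_j (u : ℤˣ) (i : ι) : (t ^ (u : ℤ) : D.G1) • D.j (D.e u i) = D.j (D.e (-u) i) := by
  rw [smul_j, j, eq_comm, mk_eq, inv_one, one_mul]
  exact rel_t u i

def W1 (z : D.X1) (m : ℚ) (z' : D.X1) : Prop :=
  ∃ g x g' x', D.pt g x = z ∧ D.pt g' x' = z' ∧ D.Rel (g⁻¹ * g') x m x'

theorem W1_mk {g x m g' x'} : D.W1 (D.pt g x) m (D.pt g' x') ↔ D.Rel (g⁻¹ * g') x m x' := by
  refine ⟨?_, fun H => ⟨_, _, _, _, rfl, rfl, H⟩⟩
  rintro ⟨g1, x1, g2, x2, e1, e2, H⟩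
  have := ((D.mk_eq.1 e1.symm).trans H).trans (D.mk_eq.1 e2)
  simpa [mul_assoc] using this

theorem W1_j {x m y} : D.W1 (D.j x) m (D.j y) ↔ D.W x m y := by
  rw [j, j, W1_mk, inv_one, one_mul, rel_one]

theorem j_inj : Function.Injective D.j := fun x y e => by
  rw [j, j, mk_eq, inv_one, one_mul, rel_one] at e
  exact D.w.zero e

theorem isW1 : IsW (G := D.G1) D.W1 where
  nonneg := by rintro _ _ _ ⟨g, x, g', x', -, -, H⟩; exact H.nonneg
  refl z := by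
    obtain ⟨g, x, rfl⟩ := D.ex_mk z
    exact D.W1_mk.2 (D.mk_eq.1 rfl)
  symm := by
    rintro _ _ _ ⟨g, x, g', x', rfl, rfl, H⟩
    exact D.W1_mk.2 (by simpa using H.symm)
  trans := by
    rintro _ _ _ _ z ⟨g, x, g', x', rfl, rfl, H⟩ H'
    obtain ⟨g2, x2, rfl⟩ := D.ex_mk z
    exact D.W1_mk.2 (by simpa [mul_assoc] using H.trans (D.W1_mk.1 H'))
  zero := by
    rintro _ _ ⟨g, x, g', x', rfl, rfl, H⟩
    exact D.mk_eq.2 H
  inv := by
    rintro a _ _ _ ⟨g, x, g', x', rfl, rfl, H⟩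
    rw [smul_mk, smul_mk, W1_mk]
    simpa [mul_assoc] using H

theorem rch_min [Finite ι] [Nonempty ι] (hm : ∀ x y, ∃ δ, ∀ m, D.W x m y ↔ δ ≤ m) :
    ∀ (l : List (ℤˣ × G)) (h : G) (x y : X), ∃ δ, ∀ m, D.Rch h l x m y ↔ δ ≤ m
  | [], _, _, _ => hm _ _
  | (u, g) :: l, h, x, y => by
    choose δ1 h1 using fun i => hm x (h • D.e (-u) i)
    choose δ2 h2 using fun i => rch_min hm l g (D.e u i) y
    obtain ⟨i, hi⟩ := Finite.exists_min (fun i => δ1 i + δ2 i)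
    refine ⟨δ1 i + δ2 i, fun m => ⟨?_, fun H => ⟨i, δ1 i, m - δ1 i, by ring, (h1 i _).2 le_rfl,
      (h2 i _).2 (by linarith)⟩⟩⟩
    rintro ⟨i', m₁, m₂, rfl, a1, a2⟩
    have := hi i'
    have := (h1 _ _).1 a1
    have := (h2 _ _).1 a2
    linarith

theorem ex_ch (g : D.G1) : ∃ h l, Ch D.A D.B l ∧ pr D.φ h l = g := by
  obtain ⟨h, l, rfl⟩ := ex_word D.φ g
  obtain ⟨h', l', k1, k2, -⟩ := ex_red D.φ l h
  exact ⟨h', l', k1, k2⟩

theorem W1_min [Finite ι] [Nonempty ι] (hm : ∀ x y, ∃ δ, ∀ m, D.W x m y ↔ δ ≤ m) (z z' : D.X1) :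
    ∃ δ, ∀ m, D.W1 z m z' ↔ δ ≤ m := by
  obtain ⟨g, x, rfl⟩ := D.ex_mk z
  obtain ⟨g', x', rfl⟩ := D.ex_mk z'
  obtain ⟨h, l, c, e⟩ := D.ex_ch (g⁻¹ * g')
  obtain ⟨δ, hδ⟩ := D.rch_min hm l h x x'
  refine ⟨δ, fun m => ?_⟩
  rw [W1_mk, ← e, ← hδ]
  exact ⟨fun H => H.red c, fun H => ⟨_, _, rfl, H⟩⟩

theorem rch_tup {κ : Type} (R : (κ → X) → Prop) (hR : ∀ (g : G) z, R (fun i => g • z i) ↔ R z)
    (hab : ∀ σ : κ → ι, R (D.a ∘ σ) ↔ R (D.b ∘ σ)) : ∀ (l : List (ℤˣ × G)) (h : G) (x y : κ → X),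
    (∀ i, D.Rch h l (x i) 0 (y i)) → (R x ↔ R y)
  | [], h, x, y, H => by
    obtain rfl : x = fun i => h • y i := funext fun i => D.w.zero (H i)
    exact hR _ _
  | (u, g) :: l, h, x, y, H => by
    choose σ h1 h2 using fun i => (H i).zero
    obtain rfl : x = fun i => h • (D.e (-u) ∘ σ) i := funext h1
    rw [hR, ← rch_tup R hR hab l g (D.e u ∘ σ) y h2]
    rcases Int.units_eq_one_or u with rfl | rfl
    · exact (hab σ).symm
    · exact hab σ

theorem tup {κ : Type} (R : (κ → X) → Prop) (hR : ∀ (g : G) z, R (fun i => g • z i) ↔ R z)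
    (hab : ∀ σ : κ → ι, R (D.a ∘ σ) ↔ R (D.b ∘ σ)) (g : D.G1) (x y : κ → X)
    (H : ∀ i, g • D.j (y i) = D.j (x i)) : R x ↔ R y := by
  obtain ⟨h, l, c, rfl⟩ := D.ex_ch g
  refine D.rch_tup R hR hab l h x y (fun i => Rel.red c ?_)
  have := H i
  rw [smul_j, j, eq_comm, mk_eq] at this
  simpa using this

end HD

end Pool.Agent.H.MP_5b0e2c_al
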