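import Mathlib
import Pool.Agent.H.MP_5b0e2c_al.B

namespace Pool.Agent.H.MP_5b0e2c_al

open HNNExtension Function

def FF (ι G X : Type) [Group G] [MulAction G X] : Prop :=
  ∀ (g : G) (z : ι → X), Injective z → (∀ i, g • z i = z i) → g = 1

def TT (k : ℕ) (G X : Type) [Group G] [MulAction G X] : Prop :=
  ∀ g : G, g ≠ 1 → IsOfFinOrder g → ∀ x : X, g • x = x →
    (∀ y : X, g • y = y → y = x) ∧ ∀ l : ℕ, l.Prime → l ∣ k → g ^ l ≠ 1

section gen
variable {G X ι : Type} [Group G] [MulAction G X]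

theorem ex_perm [Finite ι] {z z' : ι → X} (hz : Injective z) {c : G}
    (hc : ∀ i, ∃ j, c • z i = z' j) : ∃ σ : Equiv.Perm ι, ∀ i, c • z i = z' (σ i) := by
  choose σ hσ using hc
  have : Injective σ := fun i j e => hz (MulAction.injective c (by
    show c • z i = c • z j
    rw [hσ, hσ, e]))
  exact ⟨Equiv.ofBijective σ (Finite.injective_iff_bijective.1 this), hσ⟩

theorem pow_perm {z : ι → X} {c : G} {σ : Equiv.Perm ι} (h : ∀ i, c • z i = z (σ i)) (n : ℕ)
    (i : ι) : c ^ n • z i = z ((σ ^ n) i) := by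
  induction n with
  | zero => simp
  | succ n ih => rw [pow_succ', mul_smul, ih, h, pow_succ']; rfl

theorem pow_eq_one_perm (hF : FF ι G X) {z : ι → X} (hz : Injective z) {c : G}
    {σ : Equiv.Perm ι} (h : ∀ i, c • z i = z (σ i)) (n : ℕ) : c ^ n = 1 ↔ σ ^ n = 1 := by
  constructor
  · intro e
    ext i
    have := pow_perm h n i
    rw [e, one_smul] at this
    exact (hz this).symm
  · intro e
    exact hF _ z hz (fun i => by rw [pow_perm h, e]; rfl)

theorem fin_ord [Finite ι] (hF : FF ι G X) {z : ι → X} (hz : Injective z) {c : G}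
    {σ : Equiv.Perm ι} (h : ∀ i, c • z i = z (σ i)) : IsOfFinOrder c :=
  isOfFinOrder_iff_pow_eq_one.2 ⟨orderOf σ, orderOf_pos σ,
    (pow_eq_one_perm hF hz h _).2 (pow_orderOf_eq_one σ)⟩

theorem ex_prime_pow {c : G} (h1 : c ≠ 1) (hc : IsOfFinOrder c) :
    ∃ n l : ℕ, l.Prime ∧ c ^ n ≠ 1 ∧ (c ^ n) ^ l = 1 := by
  have hp := hc.orderOf_pos
  have hn : orderOf c ≠ 1 := fun e => h1 (orderOf_eq_one_iff.1 e)
  obtain ⟨l, hl, n, e⟩ := Nat.exists_prime_and_dvd hn
  refine ⟨n, l, hl, ?_, by rw [← pow_mul, mul_comm, ← e, pow_orderOf_eq_one]⟩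
  have h2 := hl.two_le
  have : 0 < n := Nat.pos_of_ne_zero (by rintro rfl; omega)
  exact pow_ne_one_of_lt_orderOf (by omega) (by rw [e]; nlinarith)

theorem fix_in [Fintype ι] (hF : FF ι G X) (hT : TT (Fintype.card ι) G X) {z : ι → X}
    (hz : Injective z) {c : G} (hc : ∀ i, ∃ j, c • z i = z j) (h1 : c ≠ 1) {x : X}
    (hx : c • x = x) : ∃ i, x = z i := by
  classical
  obtain ⟨σ, hσ⟩ := ex_perm hz hc
  have ho := fin_ord hF hz hσ
  obtain ⟨n, l, hl, k1, k2⟩ := ex_prime_pow h1 ho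
  have hx' : c ^ n • x = x := MulAction.mem_stabilizer_iff.1
    ((MulAction.stabilizer G x).pow_mem (MulAction.mem_stabilizer_iff.2 hx) n)
  obtain ⟨t1, t2⟩ := hT _ k1 ho.pow x hx'
  have := Fact.mk hl
  obtain ⟨i, hi⟩ := Equiv.Perm.exists_fixed_point_of_prime (p := l) (n := 1) (σ := σ ^ n)
    (fun h => t2 l hl h k2) (by
      rw [pow_one]; exact (pow_eq_one_perm hF hz (pow_perm hσ n) l).1 k2)
  exact ⟨i, (t1 _ (by rw [pow_perm hσ, hi])).symm⟩

end gen

namespace HD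

variable {G X ι : Type} [Group G] [MulAction G X] (D : HD G X ι)

def Tight (l : List (ℤˣ × G)) (x : X) : Prop := ∀ a ∈ l.getLast?, ∀ i, a.2 • x ≠ D.e a.1 i

variable {D}

theorem gate {l h h' l' x y} (c : Ch D.A D.B l) (c' : Ch D.A D.B l') (hl : l ≠ [])
    (ht : D.Tight l x) (e : D.pt (pr D.φ h l) x = D.pt (pr D.φ h' l') y) :
    ¬ J D.A D.B h l h' l' := by
  intro hJ
  obtain ⟨h'', pre, k1, k2, -, k4⟩ := revApp D.φ l h h' l' c c' hJ
  have ha : l.getLast hl ∈ l.getLast? := List.getLast?_eq_some_getLast hl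
  obtain ⟨rfl, d, rest, rfl⟩ := k4 _ ha
  rw [mk_eq, ← k2] at e
  obtain ⟨i, hi, -⟩ := (e.red k1).zero
  exact ht _ ha i (by rw [hi, neg_neg, smul_inv_smul])

theorem notJ {h h' : G} {u g l l'} (H : ¬ J D.A D.B h ((u, g) :: l) h' l') :
    ∃ g' l2, l' = (u, g') :: l2 ∧ h⁻¹ * h' ∈ HH D.A D.B (-u) := by
  simp only [J] at H
  push Not at H
  obtain ⟨a, ha, b, hb, hm, hne⟩ := H
  obtain rfl : (u, g) = a := by simpa using ha
  cases l' with
  | nil => simp at hb
  | cons b' l2 =>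
    obtain rfl : b' = b := by simpa using hb
    obtain ⟨u', g'⟩ := b'
    obtain rfl : u' = u := (un u' u).resolve_right (fun e => hne e.symm)
    exact ⟨g', l2, rfl, hm⟩

theorem strip {h h' : G} {u} (hm : h⁻¹ * h' ∈ HH D.A D.B (-u)) : ∃ c ∈ HH D.A D.B u,
    (of h' * t ^ (u : ℤ) : D.G1) = of h * t ^ (u : ℤ) * of c := by
  refine ⟨th D.φ (-u) _ hm, by simpa using th_mem D.φ (-u) _ hm, ?_⟩
  have e3 := t_th D.φ (-u) _ hm
  have e5 : (of (th D.φ (-u) _ hm) : D.G1) =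
      t ^ ((-u : ℤˣ) : ℤ) * of (h⁻¹ * h') * (t ^ ((-u : ℤˣ) : ℤ))⁻¹ := by rw [e3]; simp
  rw [e5]
  simp [mul_assoc]

theorem Tight.tail {a l x} (h : D.Tight (a :: l) x) : D.Tight l x := by
  intro b hb
  cases l with
  | nil => simp at hb
  | cons c l => exact h b (by simpa [List.getLast?_cons_cons] using hb)

theorem tight_len : ∀ (l : List (ℤˣ × G)) (h h' : G) (l' : List (ℤˣ × G)) (x y : X),
    Ch D.A D.B l → Ch D.A D.B l' → D.Tight l x → D.Tight l' y →
    D.pt (pr D.φ h l) x = D.pt (pr D.φ h' l') y → l.length = l'.length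
  | [], h, h', l', x, y, c, c', _, t', e => by
    by_contra hne
    exact gate c' c (by rintro rfl; simp at hne) t' e.symm (by simp [J])
  | (u, g) :: l, h, h', l', x, y, c, c', t1, t', e => by
    obtain ⟨g', l2, rfl, hm⟩ := notJ (gate c c' (by simp) t1 e)
    obtain ⟨k, -, hk⟩ := strip hm
    rw [pr_cons, pr_cons, hk, mul_assoc _ (of k), ← pr_mul, ← smul_mk, ← smul_mk,
      smul_left_cancel_iff] at e
    simp [tight_len l _ _ l2 x y (ch_tail c) (ch_tail c') t1.tail t'.tail e]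

theorem ex_tight_aux : ∀ (n : ℕ) (l : List (ℤˣ × G)) (h : G) (x : X), l.length ≤ n →
    ∃ h' l' x', Ch D.A D.B l' ∧ D.Tight l' x' ∧ D.pt (pr D.φ h' l') x' = D.pt (pr D.φ h l) x
  | 0, l, h, x, hl => by
    obtain rfl : l = [] := by simpa using hl
    exact ⟨h, [], x, ch_nil, by simp [Tight], rfl⟩
  | n + 1, l, h, x, hl => by
    obtain ⟨h1, l1, k1, k2, k3⟩ := ex_red D.φ l h
    by_cases ht : D.Tight l1 x
    · exact ⟨h1, l1, x, k1, ht, by rw [k2]⟩
    · simp only [Tight] at ht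
      push Not at ht
      obtain ⟨a, ha, i, hi⟩ := ht
      rcases List.eq_nil_or_concat l1 with rfl | ⟨l3, a', rfl⟩
      · simp at ha
      · obtain rfl : a' = a := by simpa using ha
        obtain ⟨h', l', x', j1, j2, j3⟩ := ex_tight_aux n l3 h1 (D.e (-a'.1) i)
          (by simp at k3; omega)
        refine ⟨h', l', x', j1, j2, ?_⟩
        rw [j3, ← k2, List.concat_eq_append, pr_concat D.φ h1 l3 a'.1 a'.2, ← smul_j, ← smul_j,
          mul_smul, mul_smul, of_j, hi, t_j]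

theorem ex_tight (z : D.X1) :
    ∃ h l x, Ch D.A D.B l ∧ D.Tight l x ∧ D.pt (pr D.φ h l) x = z := by
  obtain ⟨g, x, rfl⟩ := D.ex_mk z
  obtain ⟨h, l, rfl⟩ := ex_word D.φ g
  exact ex_tight_aux _ l h x le_rfl

theorem ell_aux (hT : ∀ u, ∀ c ∈ HH D.A D.B u, c ≠ 1 → ∀ x, c • x = x → ∃ i, x = D.e u i) :
    ∀ (l : List (ℤˣ × G)) (h c : G) (x : X), c ≠ 1 → Ch D.A D.B l → D.Tight l x → l ≠ [] →
    (of c : D.G1) • D.pt (pr D.φ h l) x ≠ D.pt (pr D.φ h l) x
  | [], _, _, _, _, _, _, hl => absurd rfl hl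
  | (u, g) :: l, h, c, x, hc, ch, ht, hl => by
    intro e
    rw [smul_mk, ← pr_mul] at e
    obtain ⟨g', l2, -, hm⟩ := notJ (gate ch ch hl ht e.symm)
    obtain ⟨k, hk1, hk⟩ := strip hm
    have hk2 : k ≠ 1 := by
      rintro rfl
      rw [map_one, mul_one, mul_left_inj] at hk
      exact hc (by simpa using of_injective D.φ hk)
    rw [pr_cons, pr_cons, hk, mul_assoc _ (of k), ← smul_mk, ← smul_mk, ← smul_mk,
      smul_left_cancel_iff] at e
    by_cases hl' : l = []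
    · subst hl'
      rw [pr_nil, ← smul_j, of_j, of_j] at e
      obtain ⟨i, hi⟩ := hT u k hk1 hk2 _ (D.j_inj e)
      exact ht (u, g) rfl i hi
    · exact ell_aux hT l g k x hk2 (ch_tail ch) ht.tail hl' e

theorem ell (hT : ∀ u, ∀ c ∈ HH D.A D.B u, c ≠ 1 → ∀ x, c • x = x → ∃ i, x = D.e u i)
    {c : G} (hc : c ≠ 1) {z : D.X1} (hz : (of c : D.G1) • z = z) : ∃ x, z = D.j x ∧ c • x = x := by
  obtain ⟨h, l, x, k1, k2, rfl⟩ := ex_tight z
  by_cases hl : l = []
  · subst hl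
    rw [pr_nil, ← smul_j, of_j] at hz ⊢
    rw [of_j] at hz
    exact ⟨_, rfl, D.j_inj hz⟩
  · exact absurd hz (ell_aux hT l h c x hc k1 k2 hl)

theorem hyp_aux {h l a r x} (c : Ch D.A D.B l) (hl : l ≠ []) (cr : Ch D.A D.B r) (hr : r ≠ [])
    (ht : D.Tight r x) (e : (pr D.φ h l)⁻¹ • D.pt (pr D.φ a r) x = D.pt (pr D.φ a r) x) :
    ¬ J D.A D.B h l a r := by
  intro hJ
  obtain ⟨h'', pre, k1, k2, k3, -⟩ := revApp D.φ l h a r c cr hJ
  rw [smul_mk, ← k2] at e
  have := tight_len _ _ _ _ _ _ k1 cr (by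
    intro b hb
    exact ht b (by rwa [List.getLast?_append_of_ne_nil _ hr] at hb)) ht e
  simp [k3, hl] at this

theorem hyp {h l} (c : Ch D.A D.B l) (hc : Cyc D.A D.B h l) (hl : l ≠ []) {z : D.X1}
    (hz : pr D.φ h l • z = z) : ∃ x, z = D.j x := by
  obtain ⟨a, r, x, k1, k2, rfl⟩ := ex_tight z
  by_cases hr : r = []
  · subst hr
    exact ⟨_, by rw [pr_nil, ← smul_j, of_j]⟩
  · exfalso
    have ha : l.getLast hl ∈ l.getLast? := List.getLast?_eq_some_getLast hl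
    obtain ⟨d, rest, j1, j2⟩ := hyp_pow D.φ c hc ha 0
    have n1 := hyp_aux (h := h) (a := a) c hl k1 hr k2 (by rw [inv_smul_eq_iff, hz])
    have n2 := hyp_aux (h := (l.getLast hl).2⁻¹) (a := a) j1 (by simp) k1 hr k2 (by
      rw [j2]; simpa using hz)
    have cj := cyc_J hc ha d rest
    generalize l.getLast hl = b at *
    cases l with
    | nil => exact hl rfl
    | cons b' l =>
      obtain ⟨u, g⟩ := b'
      obtain ⟨g1, l1, rfl, m1⟩ := notJ n1
      obtain ⟨g2, l2, e2, m2⟩ := notJ n2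
      obtain rfl : u = -b.1 := by simp at e2; exact e2.1.1
      have := cj _ rfl _ rfl (by
        have := (HH D.A D.B _).mul_mem m1 ((HH D.A D.B _).inv_mem m2)
        simpa [mul_assoc] using this)
      exact un_ne _ this.symm

theorem key [Finite ι] {z : ι → X} (hz : Injective z) {u u' : ℤˣ} {c : G}
    (h1 : ∀ i, ∃ j, z i = D.e u j) (h2 : ∀ i, ∃ j, z i = c • D.e (-u') j)
    (h3 : c ∈ HH D.A D.B u → u = u') : u = -1 ∧ u' = 1 := by
  obtain ⟨σ, hσ⟩ := ex_perm (G := G) (c := 1) (z' := D.e u) hz (by simpa using h1)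
  obtain ⟨τ, hτ⟩ := ex_perm (G := G) (c := c⁻¹) (z' := D.e (-u')) hz (by
    intro i; obtain ⟨j, hj⟩ := h2 i; exact ⟨j, by rw [hj, inv_smul_smul]⟩)
  have a1 : ∀ i, ∃ j, c • D.e (-u') i = D.e u j := fun i =>
    ⟨σ (τ.symm i), by rw [← hσ, one_smul, ← eq_inv_smul_iff, hτ]; simp⟩
  have a2 : ∀ i, ∃ j, c⁻¹ • D.e u i = D.e (-u') j := fun i =>
    ⟨τ (σ.symm i), by rw [← hτ, ← one_smul G (z _), hσ]; simp⟩
  rcases Int.units_eq_one_or u with rfl | rfl <;> rcases Int.units_eq_one_or u' with rfl | rfl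
  · exact absurd ⟨_, a2⟩ D.hAB
  · exact absurd (h3 ((D.hA c).2 a1)) (by decide)
  · exact ⟨rfl, rfl⟩
  · exact absurd ⟨_, a1⟩ D.hAB

theorem hypF [Finite ι] {h l} (c : Ch D.A D.B l) (hc : Cyc D.A D.B h l) (hl : l ≠ [])
    {z : ι → X} (hz : Injective z) (H : ∀ i, pr D.φ h l • D.j (z i) = D.j (z i)) : False := by
  have H' : ∀ i, D.Rch h l (z i) 0 (z i) := fun i => Rel.red c (by
    have := H i
    rw [smul_j, j, eq_comm, mk_eq] at this
    simpa using this)
  have ha : l.getLast hl ∈ l.getLast? := List.getLast?_eq_some_getLast hl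
  cases l with
  | nil => exact hl rfl
  | cons b l =>
    obtain ⟨u, g⟩ := b
    choose σ h1 h2 using fun i => (H' i).zero
    generalize ((u, g) :: l).getLast hl = a at ha
    have k1 := key (D := D) (z := fun i => a.2 • z i) ((MulAction.injective a.2).comp hz)
      (u := a.1) (u' := u) (c := a.2 * h) (fun i => (H' i).last a ha)
      (fun i => ⟨σ i, by rw [mul_smul, ← h1]⟩) (hc a ha _ rfl)
    cases l with
    | nil =>
      obtain rfl : (u, g) = a := by simpa using ha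
      obtain ⟨e1, e2⟩ := k1
      simp only at e1
      rw [e1] at e2
      exact absurd e2 (by decide)
    | cons b l =>
      obtain ⟨v, g'⟩ := b
      have hσ : Injective σ := fun i j e => hz (by rw [h1, h1 j, e])
      have k2 := key (D := D) (z := fun i => D.e u (σ i)) ((D.e_inj u).comp hσ)
        (u := u) (u' := v) (c := g) (fun i => ⟨_, rfl⟩)
        (fun i => by obtain ⟨j, hj, -⟩ := (h2 i).zero; exact ⟨j, hj⟩) (ch_head c)
      have := k1.2.symm.trans k2.1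
      exact absurd this (by decide)

variable (D) [Fintype ι]

theorem hT' (hF : FF ι G X) (hT : TT (Fintype.card ι) G X) :
    ∀ u, ∀ c ∈ HH D.A D.B u, c ≠ 1 → ∀ x, c • x = x → ∃ i, x = D.e u i :=
  fun u c hc h1 _ hx => fix_in hF hT (D.e_inj u)
    (fun i => by obtain ⟨j, hj, -⟩ := D.compat u c hc i; exact ⟨j, hj⟩) h1 hx

theorem FF1 (hF : FF ι G X) (hT : TT (Fintype.card ι) G X) : FF ι D.G1 D.X1 := by
  intro g z hz H
  obtain ⟨γ, h, l, c, hc, e⟩ := ex_cyc D.φ g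
  have H' : ∀ i, pr D.φ h l • γ • z i = γ • z i := fun i => by
    rw [← e]; simp [mul_smul, H]
  have hz' : Injective (fun i => γ • z i) := (MulAction.injective γ).comp hz
  by_cases hl : l = []
  · subst hl
    rw [pr_nil] at H' e
    by_cases h1 : h = 1
    · simpa [h1] using e
    · choose x h2 h3 using fun i => ell (D.hT' hF hT) h1 (H' i)
      exact absurd (hF h x (fun i j e => hz' (by simp only [h2, e])) h3) h1
  · choose x h2 using fun i => hyp c hc hl (H' i)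
    exact (hypF c hc hl (z := x) (fun i j e => hz' (by simp only [h2, e]))
      (fun i => by rw [← h2, H'])).elim

omit [Fintype ι] in
theorem tors (g : D.G1) (hg : IsOfFinOrder g) : ∃ γ h, γ * g * γ⁻¹ = of h ∧ IsOfFinOrder h ∧
    ∀ n : ℕ, g ^ n = 1 ↔ h ^ n = 1 := by
  obtain ⟨γ, h, e⟩ := torsion D.φ g hg
  have : ∀ n : ℕ, g ^ n = 1 ↔ h ^ n = 1 := fun n => by
    rw [← (of_injective D.φ).eq_iff, map_pow, ← e, conj_pow, map_one]
    simp
  obtain ⟨n, hn, hgn⟩ := hg.exists_pow_eq_one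
  exact ⟨γ, h, e, isOfFinOrder_iff_pow_eq_one.2 ⟨n, hn, (this n).1 hgn⟩, this⟩

theorem TT1 (hF : FF ι G X) (hT : TT (Fintype.card ι) G X) : TT (Fintype.card ι) D.G1 D.X1 := by
  intro g h1 hg z hz
  obtain ⟨γ, h, e, ho, hp⟩ := D.tors g hg
  have h2 : h ≠ 1 := fun e => h1 (by simpa using (hp 1).2 (by simpa using e))
  have a : ∀ y : D.X1, g • y = y → ∃ x, γ • y = D.j x ∧ h • x = x := fun y hy =>
    ell (D.hT' hF hT) h2 (by rw [← e]; simp [mul_smul, hy])
  obtain ⟨x, e1, e2⟩ := a z hz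
  obtain ⟨t1, t2⟩ := hT h h2 ho x e2
  refine ⟨fun y hy => ?_, fun l hl hd hg => t2 l hl hd ((hp l).1 hg)⟩
  obtain ⟨x', e3, e4⟩ := a y hy
  rw [t1 x' e4, ← e1] at e3
  exact MulAction.injective γ e3

omit [Fintype ι] in
theorem cG [Countable G] : Countable D.G1 := by
  have : Surjective (fun p : G × List (ℤˣ × G) => pr D.φ p.1 p.2) := fun g => by
    obtain ⟨h, l, e⟩ := ex_word D.φ g
    exact ⟨(h, l), e⟩
  exact this.countable

omit [Fintype ι] in
theorem cX [Countable G] [Countable X] : Countable D.X1 := by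
  have := D.cG
  exact Quotient.countable

omit [Fintype ι] in
theorem ext_hom {H : Type} [Group H] (ρ : G →* H) (hρ : ∀ g g' : G, ∀ σ : ι → ι,
    (∀ i, g • D.a i = D.a (σ i)) → (∀ i, g' • D.b i = D.b (σ i)) → ρ g = ρ g') :
    ∃ ρ' : D.G1 →* H, ∀ g, ρ' (of g) = ρ g := by
  refine ⟨lift ρ 1 (fun c => ?_), fun g => lift_of _ _ _ _⟩
  choose σ hσ using (D.hA c).1 c.2
  rw [one_mul, mul_one]
  exact hρ _ _ σ hσ (fun i => D.hφ c _ _ (hσ i))

end HD

theorem ex_HD {G X ι : Type} [Group G] [MulAction G X] [Finite ι] (hF : FF ι G X)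
    {W : X → ℚ → X → Prop} (w : IsW (G := G) W) {a b : ι → X} (ha : Injective a)
    (hb : Injective b) (hW : ∀ i j m, W (a i) m (a j) ↔ W (b i) m (b j))
    (hAB : ¬ ∃ g : G, ∀ i, ∃ j, g • a i = b j)
    (hfull : ∀ (g : G) (σ : Equiv.Perm ι), (∀ i, g • a i = a (σ i)) →
      ∃ g' : G, ∀ i, g' • b i = b (σ i)) :
    ∃ D : HD G X ι, D.W = W ∧ D.a = a ∧ D.b = b := by
  let A : Subgroup G :=
    { carrier := {g | ∀ i, ∃ j, g • a i = a j}
      one_mem' := fun i => ⟨i, one_smul _ _⟩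
      mul_mem' := fun {g h} hg hh i => by
        obtain ⟨j, hj⟩ := hh i
        obtain ⟨k, hk⟩ := hg j
        exact ⟨k, by rw [mul_smul, hj, hk]⟩
      inv_mem' := fun {g} hg i => by
        obtain ⟨σ, hσ⟩ := ex_perm ha hg
        exact ⟨σ.symm i, by rw [inv_smul_eq_iff, hσ]; simp⟩ }
  have : ∀ c : A, ∃ g' : G, ∀ i j, (c : G) • a i = a j → g' • b i = b j := fun c => by
    obtain ⟨σ, hσ⟩ := ex_perm ha c.2
    obtain ⟨g', hg⟩ := hfull c σ hσ
    exact ⟨g', fun i j e => by rw [hg, ha ((hσ i).symm.trans e)]⟩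
  choose θ hθ using this
  have uq : ∀ g g' : G, (∀ i, g • b i = g' • b i) → g = g' := fun g g' h =>
    (inv_mul_eq_one.1 (hF (g⁻¹ * g') b hb (fun i => by rw [mul_smul, ← h, inv_smul_smul])))
  let θ' : A →* G := MonoidHom.mk' θ (fun c d => uq _ _ (fun i => by
    obtain ⟨j, hj⟩ := d.2 i
    obtain ⟨k, hk⟩ := c.2 j
    rw [mul_smul, hθ d i j hj, hθ c j k hk, hθ (c * d) i k (by
      rw [Subgroup.coe_mul, mul_smul, hj, hk])]))
  have hi : Injective θ' := by
    rw [injective_iff_map_eq_one]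
    intro c hc
    refine Subtype.ext (hF _ a ha (fun i => ?_))
    obtain ⟨j, hj⟩ := c.2 i
    have := hθ c i j hj
    rw [show θ c = 1 from hc, one_smul] at this
    rw [hj, hb this]
  exact ⟨⟨W, a, b, A, θ'.range, MonoidHom.ofInjective hi, w, ha, hb, hW, fun _ => Iff.rfl,
    fun c i j e => hθ c i j e, hAB⟩, rfl, rfl, rfl⟩

end Pool.Agent.H.MP_5b0e2c_al
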