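import Mathlib

namespace Pool.Agent.H.MP_5b0e2c_al

open Function

structure St (Λ : Type) where
  G : Type
  X : Type
  [grp : Group G]
  [act : MulAction G X]
  [cG : Countable G]
  [cX : Countable X]
  d : X → X → Λ
  R : (Fin 4 → X) → Prop

attribute [instance] St.grp St.act St.cG St.cX

variable {Λ : Type}

structure Hom (S S' : St Λ) where
  g : S.G →* S'.G
  x : S.X ↪ S'.X
  eqv : ∀ (a : S.G) (y : S.X), x (a • y) = g a • x y
  hd : ∀ y z, S'.d (x y) (x z) = S.d y z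
  hR : ∀ z, S'.R (x ∘ z) ↔ S.R z

def Hom.id (S : St Λ) : Hom S S :=
  ⟨MonoidHom.id _, Embedding.refl _, fun _ _ => rfl, fun _ _ => rfl, fun _ => Iff.rfl⟩

def Hom.comp {S S' S'' : St Λ} (f' : Hom S' S'') (f : Hom S S') : Hom S S'' :=
  ⟨f'.g.comp f.g, f.x.trans f'.x, fun a y => by
    simp only [Embedding.trans_apply, f.eqv, f'.eqv, MonoidHom.comp_apply],
   fun y z => by simp only [Embedding.trans_apply, f'.hd, f.hd],
   fun z => (f'.hR (f.x ∘ z)).trans (f.hR z)⟩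

section lim
variable (S : ℕ → St Λ) (f : ∀ n, Hom (S n) (S (n + 1)))

noncomputable def tr (n m : ℕ) (h : n ≤ m) : Hom (S n) (S m) :=
  Nat.leRec (motive := fun m _ => Hom (S n) (S m)) (Hom.id _) (fun m _ ih => (f m).comp ih) h

theorem tr_self (n : ℕ) : tr S f n n le_rfl = Hom.id _ := by rw [tr, Nat.leRec_self]
theorem tr_succ (n m : ℕ) (h : n ≤ m) (h' : n ≤ m + 1) :
    tr S f n (m + 1) h' = (f m).comp (tr S f n m h) := by rw [tr, Nat.leRec_succ _ _ h]; rfl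

noncomputable def tG (n m : ℕ) (h : n ≤ m) : (S n).G →* (S m).G := (tr S f n m h).g
noncomputable def tX (n m : ℕ) (h : n ≤ m) : (S n).X ↪ (S m).X := (tr S f n m h).x

instance : DirectedSystem (fun n => (S n).G) (tG S f · · ·) where
  map_self n x := by rw [tG, tr_self]; rfl
  map_map k j i hij hjk x := by
    induction k, hjk using Nat.le_induction with
    | base => rw [tG, tr_self]; rfl
    | succ k h ih =>
      simp only [tG] at ih ⊢
      rw [tr_succ S f j k h, tr_succ S f i k (hij.trans h)]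
      exact congrArg (f k).g ih

instance : DirectedSystem (fun n => (S n).X) (tX S f · · ·) where
  map_self n x := by rw [tX, tr_self]; rfl
  map_map k j i hij hjk x := by
    induction k, hjk using Nat.le_induction with
    | base => rw [tX, tr_self]; rfl
    | succ k h ih =>
      simp only [tX] at ih ⊢
      rw [tr_succ S f j k h, tr_succ S f i k (hij.trans h)]
      exact congrArg (f k).x ih

abbrev GLm : Type := DirectLimit (fun n => (S n).G) (tG S f)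
abbrev XL : Type := DirectLimit (fun n => (S n).X) (tX S f)

noncomputable def jG (n : ℕ) : (S n).G →* GLm S f :=
  MonoidHom.mk' (fun x => ⟦⟨n, x⟩⟧) (fun _ _ => (DirectLimit.mul_def ..).symm)
noncomputable def jX (n : ℕ) : (S n).X ↪ XL S f :=
  ⟨fun x => ⟦⟨n, x⟩⟧, DirectLimit.mk_injective _ (fun n m h => (tX S f n m h).injective) n⟩

theorem jG_f (n m : ℕ) (h : n ≤ m) (x) : jG S f m (tG S f n m h x) = jG S f n x :=
  DirectLimit.mk_apply ..
theorem jX_f (n m : ℕ) (h : n ≤ m) (x) : jX S f m (tX S f n m h x) = jX S f n x :=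
  DirectLimit.mk_apply ..

theorem exG (g : GLm S f) : ∃ n, ∀ m, n ≤ m → ∃ x, jG S f m x = g := by
  obtain ⟨n, x, rfl⟩ := DirectLimit.exists_eq_mk _ g
  exact ⟨n, fun m h => ⟨_, jG_f S f n m h x⟩⟩
theorem exX (v : XL S f) : ∃ n, ∀ m, n ≤ m → ∃ x, jX S f m x = v := by
  obtain ⟨n, x, rfl⟩ := DirectLimit.exists_eq_mk _ v
  exact ⟨n, fun m h => ⟨_, jX_f S f n m h x⟩⟩

theorem exT {κ : Type} [Finite κ] (g g' : GLm S f) (v : κ → XL S f) :
    ∃ n a a', ∃ x : κ → (S n).X, jG S f n a = g ∧ jG S f n a' = g' ∧ jX S f n ∘ x = v := by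
  obtain ⟨n1, h1⟩ := exG S f g
  obtain ⟨n2, h2⟩ := exG S f g'
  choose n3 h3 using fun i => exX S f (v i)
  obtain ⟨N, hN⟩ := (Set.finite_range n3).bddAbove
  obtain ⟨a, ha⟩ := h1 (n1 + n2 + N) (by omega)
  obtain ⟨a', ha'⟩ := h2 (n1 + n2 + N) (by omega)
  choose x hx using fun i => h3 i (n1 + n2 + N) (by have := hN ⟨i, rfl⟩; omega)
  exact ⟨_, a, a', x, ha, ha', funext hx⟩

noncomputable instance : MulAction (GLm S f) (XL S f) where
  smul := DirectLimit.map₂ (tG S f) (tX S f) (tX S f) (fun _ g v => g • v)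
    (fun n m h g v => (tr S f n m h).eqv g v)
  one_smul v := by
    obtain ⟨n, x, rfl⟩ := DirectLimit.exists_eq_mk _ v
    have : (1 : GLm S f) = ⟦⟨n, 1⟩⟧ := (map_one (jG S f n)).symm
    rw [this]
    exact (DirectLimit.map₂_def ..).trans (by rw [one_smul])
  mul_smul a b v := by
    obtain ⟨n, a, b, x, rfl, rfl, hx⟩ := exT S f a b (fun _ : Unit => v)
    obtain rfl : jX S f n (x ()) = v := congrFun hx ()
    rw [← map_mul]
    have h : ∀ (g : (S n).G) (y : (S n).X), DirectLimit.map₂ (tG S f) (tX S f) (tX S f)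
      (fun _ g v => g • v) (fun n m h g v => (tr S f n m h).eqv g v) (jG S f n g) (jX S f n y) =
      jX S f n (g • y) := fun g y => DirectLimit.map₂_def ..
    exact (h _ _).trans (by
      rw [mul_smul]
      exact ((congrArg _ (h _ _)).trans (h _ _)).symm)

theorem act_j (n : ℕ) (g : (S n).G) (v : (S n).X) :
    jX S f n (g • v) = jG S f n g • jX S f n v :=
  (DirectLimit.map₂_def (tG S f) (tX S f) (tX S f) (fun _ g v => g • v)
    (fun n m h g v => (tr S f n m h).eqv g v) n g v).symm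

noncomputable def Lim : St Λ where
  G := GLm S f
  X := XL S f
  cG := Quotient.countable
  cX := Quotient.countable
  d := DirectLimit.lift₂ (tX S f) (tX S f) (fun n => (S n).d)
    (fun n m h x y => ((tr S f n m h).hd x y).symm)
  R z := ∃ n w, jX S f n ∘ w = z ∧ (S n).R w

noncomputable def toLim (n : ℕ) : Hom (S n) (Lim S f) where
  g := jG S f n
  x := jX S f n
  eqv := act_j S f n
  hd y z := DirectLimit.lift₂_def (tX S f) (tX S f) (fun n => (S n).d)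
    (fun n m h x y => ((tr S f n m h).hd x y).symm) n y z
  hR z := by
    refine ⟨?_, fun h => ⟨n, z, rfl, h⟩⟩
    rintro ⟨m, w, e, h⟩
    rw [← (tr S f m (m + n) (by omega)).hR] at h
    rw [← (tr S f n (m + n) (by omega)).hR]
    convert h using 1
    funext i
    apply (jX S f (m + n)).injective
    exact (jX_f S f n _ _ _).trans ((congrFun e i).symm.trans (jX_f S f m _ _ _).symm)

end lim

theorem limit {C : Type} [Countable C] (ar : C → Type) [∀ c, Finite (ar c)] (P : St Λ → Prop)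
    (Goal : ∀ S : St Λ, ∀ c, (ar c → S.X) → Prop)
    (mono : ∀ S S' (f : Hom S S') c x, Goal S c x → Goal S' c (f.x ∘ x))
    (step : ∀ S, P S → ∀ c x, ∃ S', ∃ f : Hom S S', P S' ∧ Goal S' c (f.x ∘ x))
    (S₀ : St Λ) (h₀ : P S₀) : ∃ L : St Λ,
    (∀ (g : L.G) (κ : Type) [Finite κ] (x : κ → L.X), ∃ S, P S ∧ ∃ f : Hom S L, ∃ g' x',
      f.g g' = g ∧ f.x ∘ x' = x) ∧ ∀ c x, Goal L c x := by
  let T : St Λ → Type := fun S => Option (Σ c, ar c → S.X)
  let push : ∀ {S S' : St Λ}, Hom S S' → T S → T S' := fun f τ =>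
    τ.map (fun p => ⟨p.1, f.x ∘ p.2⟩)
  have en : ∀ S, ∃ e : ℕ → T S, Surjective e := fun S => exists_surjective_nat _
  choose en hen using en
  let Sta := Σ S : {S // P S}, ℕ → T S.1
  have nx : ∀ (n : ℕ) (σ : Sta), ∃ σ' : Sta, ∃ f : Hom σ.1.1 σ'.1.1,
      (∀ c x, σ.2 n = some ⟨c, x⟩ → Goal _ c (f.x ∘ x)) ∧
      (∀ m, (Nat.unpair m).1 ≠ n + 1 → σ'.2 m = push f (σ.2 m)) ∧
      ∀ τ, ∃ m, (Nat.unpair m).1 = n + 1 ∧ σ'.2 m = τ := by
    intro n σ
    have : ∃ S', ∃ f : Hom σ.1.1 S', P S' ∧ ∀ c x, σ.2 n = some ⟨c, x⟩ → Goal _ c (f.x ∘ x) := by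
      rcases h : σ.2 n with _ | ⟨c, x⟩
      · exact ⟨_, Hom.id _, σ.1.2, fun _ _ e => by cases e⟩
      · obtain ⟨S', f, h1, h2⟩ := step _ σ.1.2 c x
        exact ⟨S', f, h1, fun _ _ e => by cases e; exact h2⟩
    obtain ⟨S', f, h1, h2⟩ := this
    refine ⟨⟨⟨S', h1⟩, fun m => if (Nat.unpair m).1 = n + 1 then en S' (Nat.unpair m).2 else
      push f (σ.2 m)⟩, f, h2, fun m hm => if_neg hm, fun τ => ?_⟩
    obtain ⟨j, hj⟩ := hen S' τ
    exact ⟨Nat.pair (n + 1) j, by simp, by simp [hj]⟩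
  choose nx nf h1 h2 h3 using nx
  let sq : ℕ → Sta := fun n => Nat.rec ⟨⟨S₀, h₀⟩, fun m => en S₀ (Nat.unpair m).2⟩ nx n
  let S : ℕ → St Λ := fun n => (sq n).1.1
  let f : ∀ n, Hom (S n) (S (n + 1)) := fun n => nf n (sq n)
  refine ⟨Lim S f, fun g κ _ x => ?_, fun c x => ?_⟩
  · obtain ⟨n, a, -, w, e1, -, e2⟩ := exT S f g g x
    exact ⟨S n, (sq n).1.2, toLim S f n, a, w, e1, e2⟩
  · obtain ⟨i, -, -, w, -, -, rfl⟩ := exT S f 1 1 x
    have : ∃ m, (Nat.unpair m).1 = i ∧ (sq i).2 m = some ⟨c, w⟩ := by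
      cases i with
      | zero =>
        obtain ⟨j, hj⟩ := hen S₀ (some ⟨c, w⟩)
        refine ⟨Nat.pair 0 j, by simp, ?_⟩
        show en S₀ _ = _
        simpa using hj
      | succ i => exact h3 i (sq i) _
    obtain ⟨m, e1, e2⟩ := this
    have hq : ∀ n (h : i ≤ n), (sq n).2 m = some ⟨c, (tr S f i n h).x ∘ w⟩ := by
      intro n h
      induction n, h using Nat.le_induction with
      | base => rw [tr_self]; exact e2
      | succ n h ih =>
        rw [tr_succ S f i n h]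
        exact (h2 n (sq n) m (by omega)).trans (by rw [ih]; rfl)
    have him : i ≤ m := e1 ▸ Nat.unpair_left_le m
    have := mono _ _ (toLim S f (m + 1)) c _ (h1 m (sq m) c _ (hq m him))
    convert this using 1
    funext k
    rw [comp_apply, ← jX_f S f i (m + 1) (by omega), tX, tr_succ S f i m him]
    rfl

theorem bf {X Y : Type} [Countable X] [Countable Y] (I : Set (Y × X) → Prop)
    (fo : ∀ p, I p → ∀ y, ∃ x, I (insert (y, x) p)) (ba : ∀ p, I p → ∀ x, ∃ y, I (insert (y, x) p))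
    (inj : ∀ p, I p → ∀ q ∈ p, ∀ q' ∈ p, (q.1 = q'.1 ↔ q.2 = q'.2)) (p₀) (h : I p₀) :
    ∃ e : Y ≃ X, (∀ q ∈ p₀, e q.1 = q.2) ∧
      ∀ (κ : Type) [Finite κ] (y : κ → Y), ∃ p, I p ∧ ∀ i, (y i, e (y i)) ∈ p := by
  obtain ⟨en, hen⟩ := exists_surjective_nat (Option (Y ⊕ X))
  have step : ∀ (p : {p // I p}) (o : Option (Y ⊕ X)), ∃ p' : {p // I p}, p.1 ⊆ p'.1 ∧
      (∀ y, o = some (.inl y) → ∃ x, (y, x) ∈ p'.1) ∧
      (∀ x, o = some (.inr x) → ∃ y, (y, x) ∈ p'.1) := by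
    rintro p (_ | y | x)
    · exact ⟨p, subset_rfl, by simp, by simp⟩
    · obtain ⟨x, hx⟩ := fo _ p.2 y
      exact ⟨⟨_, hx⟩, Set.subset_insert _ _, by simp, by simp⟩
    · obtain ⟨y, hy⟩ := ba _ p.2 x
      exact ⟨⟨_, hy⟩, Set.subset_insert _ _, by simp, by simp⟩
  choose nx h1 h2 h3 using step
  let sq : ℕ → {p // I p} := fun n => Nat.rec ⟨p₀, h⟩ (fun n p => nx p (en n)) n
  have mo : Monotone (fun n => (sq n).1) := monotone_nat_of_le_succ (fun n => h1 _ _)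
  have uq : ∀ {n m y x y' x'}, (y, x) ∈ (sq n).1 → (y', x') ∈ (sq m).1 → (y = y' ↔ x = x') :=
    fun {n m _ _ _ _} a b => inj _ (sq (n + m)).2 _ (mo (Nat.le_add_right n m) a) _
      (mo (Nat.le_add_left m n) b)
  have t1 : ∀ y, ∃ x n, (y, x) ∈ (sq n).1 := fun y => by
    obtain ⟨n, hn⟩ := hen (some (.inl y))
    obtain ⟨x, hx⟩ := h2 (sq n) _ y hn
    exact ⟨x, n + 1, hx⟩
  choose F N hF using t1
  have hb : Bijective F := ⟨fun y y' e => (uq (hF y) (hF y')).2 e, fun x => by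
    obtain ⟨n, hn⟩ := hen (some (.inr x))
    obtain ⟨y, hy⟩ := h3 (sq n) _ x hn
    exact ⟨y, (uq (m := n + 1) (hF y) hy).1 rfl⟩⟩
  refine ⟨Equiv.ofBijective F hb, fun q hq => (uq (m := 0) (hF q.1) hq).1 rfl, fun κ _ y => ?_⟩
  obtain ⟨M, hM⟩ := (Set.finite_range (fun i => N (y i))).bddAbove
  exact ⟨_, (sq M).2, fun i => mo (hM ⟨i, rfl⟩) (hF _)⟩

def ST {X Y κ : Type} (dY : Y → Y → Λ) (RY : (Fin 4 → Y) → Prop) (dX : X → X → Λ)
    (RX : (Fin 4 → X) → Prop) (c : κ → Y) (a : κ → X) : Prop :=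
  (∀ i j, dY (c i) (c j) = dX (a i) (a j) ∧ (c i = c j ↔ a i = a j)) ∧
    ∀ z : Fin 4 → κ, RY (c ∘ z) ↔ RX (a ∘ z)

section st
variable {X Y Z κ κ' : Type} {dY : Y → Y → Λ} {RY : (Fin 4 → Y) → Prop} {dX : X → X → Λ}
  {RX : (Fin 4 → X) → Prop} {dZ : Z → Z → Λ} {RZ : (Fin 4 → Z) → Prop}

theorem ST.symm {c : κ → Y} {a : κ → X} (h : ST dY RY dX RX c a) : ST dX RX dY RY a c :=
  ⟨fun i j => ⟨(h.1 i j).1.symm, (h.1 i j).2.symm⟩, fun z => (h.2 z).symm⟩

theorem ST.trans {c : κ → Y} {a : κ → X} {b : κ → Z} (h : ST dY RY dX RX c a)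
    (h' : ST dX RX dZ RZ a b) : ST dY RY dZ RZ c b :=
  ⟨fun i j => ⟨(h.1 i j).1.trans (h'.1 i j).1, (h.1 i j).2.trans (h'.1 i j).2⟩,
    fun z => (h.2 z).trans (h'.2 z)⟩

theorem ST.comp {c : κ → Y} {a : κ → X} (h : ST dY RY dX RX c a) (σ : κ' → κ) :
    ST dY RY dX RX (c ∘ σ) (a ∘ σ) := ⟨fun _ _ => h.1 _ _, fun z => h.2 (σ ∘ z)⟩

theorem ST.refl (c : κ → Y) : ST dY RY dY RY c c := ⟨fun _ _ => ⟨rfl, Iff.rfl⟩, fun _ => Iff.rfl⟩

theorem ST.inj {c : κ → Y} {a : κ → X} (h : ST dY RY dX RX c a) (hc : Injective c) :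
    Injective a := fun i j e => hc ((h.1 i j).2.2 e)

theorem Hom.st {S S' : St Λ} (f : Hom S S') (a : κ → S.X) : ST S.d S.R S'.d S'.R a (f.x ∘ a) :=
  ⟨fun _ _ => ⟨(f.hd _ _).symm, f.x.injective.eq_iff.symm⟩, fun z => (f.hR (a ∘ z)).symm⟩

def PI (dY : Y → Y → Λ) (RY : (Fin 4 → Y) → Prop) (dX : X → X → Λ)
    (RX : (Fin 4 → X) → Prop) (p : Set (Y × X)) : Prop :=
  p.Finite ∧ ST dY RY dX RX (fun q : p => q.1.1) (fun q : p => q.1.2)

theorem PI.st {p} (h : PI dY RY dX RX p) {c : κ → Y} {a : κ → X} (H : ∀ i, (c i, a i) ∈ p) :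
    ST dY RY dX RX c a := h.2.comp (fun i => ⟨_, H i⟩)

theorem ST.pi [Finite κ] {c : κ → Y} {a : κ → X} (h : ST dY RY dX RX c a) {p : Set (Y × X)}
    (H : ∀ q ∈ p, ∃ i, (c i, a i) = q) : PI dY RY dX RX p := by
  refine ⟨(Set.finite_range (fun i => (c i, a i))).subset H, ?_⟩
  choose σ hσ using fun q : p => H q.1 q.2
  convert h.comp σ using 1 <;> funext q <;> simp [← hσ]

abbrev MT (Λ : Type) := ∀ {Y : Type}, (Y → Y → Λ) → ((Fin 4 → Y) → Prop) → Prop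

def Pull (Mod : MT Λ) : Prop := ∀ {Y Y' : Type} (d : Y → Y → Λ) (R : (Fin 4 → Y) → Prop)
  (β : Y' → Y), Injective β → Mod d R → Mod (fun x y => d (β x) (β y)) (fun z => R (β ∘ z))

def ExtG (Mod : MT Λ) (dX : X → X → Λ) (RX : (Fin 4 → X) → Prop) {m : ℕ}
    (d' : Option (Fin m) → Option (Fin m) → Λ) (R' : (Fin 4 → Option (Fin m)) → Prop)
    (a : Fin m → X) : Prop :=
  Mod d' R' → ST d' R' dX RX some a → ∃ x, ST d' R' dX RX id (fun o => o.elim x a)

theorem ExtG.mono {Mod : MT Λ} {S S' : St Λ} (f : Hom S S') {m d' R'} {a : Fin m → S.X}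
    (h : ExtG Mod S.d S.R d' R' a) : ExtG Mod S'.d S'.R d' R' (f.x ∘ a) := fun h1 h2 => by
  obtain ⟨x, hx⟩ := h h1 (h2.trans (f.st a).symm)
  refine ⟨f.x x, ?_⟩
  convert hx.trans (f.st _) using 1
  funext o; cases o <;> rfl

theorem forth {Mod : MT Λ} (hp : Pull Mod) (hY : Mod dY RY)
    (hX : ∀ m d' R' (a : Fin m → X), ExtG Mod dX RX d' R' a) (p) (h : PI dY RY dX RX p) (y : Y) :
    ∃ x, PI dY RY dX RX (insert (y, x) p) := by
  by_cases hy : ∃ x, (y, x) ∈ p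
  · obtain ⟨x, hx⟩ := hy
    exact ⟨x, by rwa [Set.insert_eq_of_mem hx]⟩
  · have := h.1.to_subtype
    obtain ⟨m, ⟨e⟩⟩ := Finite.exists_equiv_fin p
    let β : Option (Fin m) → Y := fun o => o.elim y (fun i => (e.symm i).1.1)
    have hs := h.2.comp e.symm
    have hi : ∀ i j, (e.symm i).1.1 = (e.symm j).1.1 → i = j := fun i j h =>
      e.symm.injective (Subtype.ext (Prod.ext h ((hs.1 i j).2.1 h)))
    have hβ : Injective β := by
      rintro (_ | i) (_ | j) h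
      · rfl
      · exact absurd ⟨(e.symm j).1.2, by rw [show y = _ from h]; exact (e.symm j).2⟩ hy
      · exact absurd ⟨(e.symm i).1.2, by rw [← show _ = y from h]; exact (e.symm i).2⟩ hy
      · rw [hi i j h]
    obtain ⟨x, hx⟩ := hX m _ _ (fun i => (e.symm i).1.2) (hp dY RY β hβ hY)
      ⟨fun i j => ⟨(hs.1 i j).1, hβ.eq_iff.symm.trans (hs.1 i j).2⟩, fun z => hs.2 z⟩
    refine ⟨x, ST.pi (c := β) (a := fun o => o.elim x (fun i => (e.symm i).1.2))
      ⟨fun i j => ⟨(hx.1 i j).1, hβ.eq_iff.trans (hx.1 i j).2⟩, fun z => hx.2 z⟩ ?_⟩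
    rintro q (rfl | hq)
    · exact ⟨none, rfl⟩
    · exact ⟨some (e ⟨q, hq⟩), by simp [β]⟩

theorem PI.swap {p} (h : PI dY RY dX RX p) : PI dX RX dY RY (Prod.swap ⁻¹' p) :=
  ⟨h.1.preimage Prod.swap_injective.injOn, (h.st (fun q : Prod.swap ⁻¹' p => q.2)).symm⟩

theorem ultra [Countable X] [Finite κ] {Mod : MT Λ} (hp : Pull Mod) (hM : Mod dX RX)
    (hX : ∀ m d' R' (a : Fin m → X), ExtG Mod dX RX d' R' a) {a b : κ → X}
    (h : ST dX RX dX RX a b) : ∃ e : X ≃ X, (∀ i, e (a i) = b i) ∧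
      (∀ x y, dX (e x) (e y) = dX x y) ∧ ∀ z, RX (e ∘ z) ↔ RX z := by
  obtain ⟨e, h1, h2⟩ := bf (PI dX RX dX RX) (forth hp hM hX) (fun p h x => by
    obtain ⟨y, hy⟩ := forth hp hM hX _ h.swap x
    refine ⟨y, ?_⟩
    convert hy.swap using 1
    ext ⟨u, v⟩
    simp [and_comm]) (fun p h q hq q' hq' => (h.2.1 ⟨q, hq⟩ ⟨q', hq'⟩).2)
    (Set.range (fun i => (a i, b i))) (h.pi (fun _ h => h))
  refine ⟨e, fun i => h1 _ ⟨i, rfl⟩, fun x y => ?_, fun z => ?_⟩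
  · obtain ⟨p, hp, H⟩ := h2 _ ![x, y]
    exact ((hp.st H).1 0 1).1.symm
  · obtain ⟨p, hp, H⟩ := h2 _ z
    exact ((hp.st H).2 id).symm

theorem univ [Finite Y] {Mod : MT Λ} (hp : Pull Mod) (hY : Mod dY RY)
    (hX : ∀ m d' R' (a : Fin m → X), ExtG Mod dX RX d' R' a) :
    ∃ f : Y → X, ST dY RY dX RX id f := by
  have : ∀ s : Set Y, s.Finite → ∃ p, PI dY RY dX RX p ∧ ∀ y ∈ s, ∃ x, (y, x) ∈ p := by
    intro s hs
    induction s, hs using Set.Finite.induction_on with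
    | empty => exact ⟨∅, ⟨Set.finite_empty, fun i => i.2.elim, fun z => (z 0).2.elim⟩, by simp⟩
    | @insert y s _ _ ih =>
      obtain ⟨p, h1, h2⟩ := ih
      obtain ⟨x, hx⟩ := forth hp hY hX p h1 y
      refine ⟨_, hx, ?_⟩
      rintro y' (rfl | h)
      · exact ⟨x, Set.mem_insert _ _⟩
      · obtain ⟨x', hx'⟩ := h2 y' h
        exact ⟨x', Set.mem_insert_of_mem _ hx'⟩
  obtain ⟨p, h1, h2⟩ := this Set.univ Set.finite_univ
  choose f hf using fun y => h2 y trivial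
  exact ⟨f, h1.st hf⟩

end st

end Pool.Agent.H.MP_5b0e2c_al
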