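import Mathlib
import Pool.Agent.H.MP_5b0e2c_al.C
import Pool.Agent.H.MP_5b0e2c_al.D

namespace Pool.Agent.H.MP_5b0e2c_al

open Function

variable {Λ ι : Type}

def Inv (S : St Λ) : Prop :=
  (∀ (g : S.G) x y, S.d (g • x) (g • y) = S.d x y) ∧ ∀ (g : S.G) z, S.R (fun i => g • z i) ↔ S.R z

theorem Inv.st {S : St Λ} (h : Inv S) (g : S.G) (a : ι → S.X) :
    ST S.d S.R S.d S.R a (fun i => g • a i) :=
  ⟨fun _ _ => ⟨(h.1 _ _ _).symm, (MulAction.injective g).eq_iff.symm⟩,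
    fun z => (h.2 g (a ∘ z)).symm⟩

def Full (S : St Λ) (c : ι → S.X) : Prop :=
  ∀ σ : Equiv.Perm ι, ST S.d S.R S.d S.R c (c ∘ σ) → ∃ g : S.G, ∀ i, g • c i = c (σ i)

theorem Full.mono {S S' : St Λ} (f : Hom S S') {c : ι → S.X} (h : Full S c) :
    Full S' (f.x ∘ c) := fun σ H => by
  obtain ⟨g, hg⟩ := h σ (((f.st c).trans H).trans (f.st (c ∘ σ)).symm)
  exact ⟨f.g g, fun i => by simp only [comp_apply, ← f.eqv, hg]⟩

def HS (ι : Type) (P : St Λ → Prop) : Prop := ∀ S, P S → ∀ a b : ι → S.X, Injective a →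
  ST S.d S.R S.d S.R a b → (¬ ∃ g : S.G, ∀ i, ∃ j, g • a i = b j) →
  (∀ (g : S.G) (σ : Equiv.Perm ι), (∀ i, g • a i = a (σ i)) →
    ∃ g' : S.G, ∀ i, g' • b i = b (σ i)) →
  ∃ S', ∃ f : Hom S S', P S' ∧ ∃ t : S'.G, ∀ i, t • f.x (a i) = f.x (b i)

theorem join1 [Finite ι] {P : St Λ → Prop} (hI : ∀ S, P S → Inv S) (hs : HS ι P) (S) (hS : P S)
    (a c : ι → S.X) (ha : Injective a) (h : ST S.d S.R S.d S.R a c) (hc : Full S c) :
    ∃ S', ∃ f : Hom S S', P S' ∧ ∃ t : S'.G, ∀ i, t • f.x (a i) = f.x (c i) := by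
  by_cases H : ∃ g : S.G, ∀ i, ∃ j, g • a i = c j
  · obtain ⟨g, hg⟩ := H
    obtain ⟨σ, hσ⟩ := ex_perm ha hg
    obtain ⟨g', hg'⟩ := hc σ (h.symm.trans (by
      convert (hI S hS).st g a using 1
      exact funext fun i => (hσ i).symm))
    exact ⟨S, Hom.id S, hS, g'⁻¹ * g, fun i => by
      show _ • a i = c i
      rw [mul_smul, hσ, ← hg', inv_smul_smul]⟩
  · refine hs S hS a c ha h H (fun g σ hσ => hc σ ((h.symm.trans ?_).trans (h.comp σ)))
    convert (hI S hS).st g a using 1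
    exact funext fun i => (hσ i).symm

def JG (S : St Λ) (x : ι ⊕ ι → S.X) : Prop :=
  Injective (x ∘ Sum.inl) → ST S.d S.R S.d S.R (x ∘ Sum.inl) (x ∘ Sum.inr) →
    ∃ g : S.G, ∀ i, g • x (.inl i) = x (.inr i)

theorem build [Finite ι] [Countable Λ] {Mod : MT Λ} {P : St Λ → Prop} (hI : ∀ S, P S → Inv S)
    (hF : ∀ S, P S → FF ι S.G S.X) (hs : HS ι P)
    (hB : ∀ S, P S → ∀ a : ι → S.X, Injective a → ∃ S', ∃ _ : Hom S S', P S' ∧
      ∃ c, ST S.d S.R S'.d S'.R a c ∧ Full S' c)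
    (hN : ∀ S, P S → ∀ m d' R' (a : Fin m → S.X), ∃ S', ∃ f : Hom S S', P S' ∧
      ExtG Mod S'.d S'.R d' R' (f.x ∘ a)) (S₀ : St Λ) (h₀ : P S₀) :
    ∃ L : St Λ, Inv L ∧ (∀ m d' R' (a : Fin m → L.X), ExtG Mod L.d L.R d' R' a) ∧
      (∀ (κ : Type) [Finite κ] (x : κ → L.X), ∃ S, P S ∧ ∃ f : Hom S L, ∃ x', f.x ∘ x' = x) ∧
      ∀ a b : ι → L.X, Injective a → ST L.d L.R L.d L.R a b → ∃! g : L.G, ∀ i, g • a i = b i := by
  let C := Option (Σ m : ℕ, (Option (Fin m) → Option (Fin m) → Λ) ×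
    ((Fin 4 → Option (Fin m)) → Prop))
  let ar : C → Type := fun c => match c with
    | none => ι ⊕ ι
    | some p => Fin p.1
  have : ∀ c, Finite (ar c) := fun c => by cases c <;> simp only [ar] <;> infer_instance
  obtain ⟨L, h1, h2⟩ := limit ar P (fun S c => match c with
    | none => fun x => JG S x
    | some p => fun x => ExtG Mod S.d S.R p.2.1 p.2.2 x) (by
      rintro S S' f (_ | p) x h
      · intro k1 k2
        obtain ⟨g, hg⟩ := h (Injective.of_comp (f := f.x) k1)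
          (((f.st _).trans k2).trans (f.st _).symm)
        exact ⟨f.g g, fun i => by simp only [comp_apply, ← f.eqv, hg]⟩
      · exact h.mono f) (by
      rintro S hS (_ | p) x
      · by_cases H : Injective (x ∘ Sum.inl) ∧ ST S.d S.R S.d S.R (x ∘ Sum.inl) (x ∘ Sum.inr)
        · obtain ⟨S1, f1, p1, c, k1, k2⟩ := hB S hS _ H.1
          obtain ⟨S2, f2, p2, t, ht⟩ := join1 hI hs S1 p1 _ c ((f1.st _).inj H.1)
            ((f1.st _).symm.trans k1) k2
          obtain ⟨S3, f3, p3, t', ht'⟩ := join1 hI hs S2 p2 _ _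
            (((f2.comp f1).st _).inj (H.2.inj H.1))
            (((((f2.comp f1).st _).symm.trans H.2.symm).trans k1).trans (f2.st c)) (k2.mono f2)
          refine ⟨S3, f3.comp (f2.comp f1), p3, fun _ _ => ⟨t'⁻¹ * f3.g t, fun i => ?_⟩⟩
          rw [mul_smul, inv_smul_eq_iff]
          exact ((f3.eqv _ _).symm.trans (congrArg f3.x (ht i))).trans (ht' i).symm
        · exact ⟨S, Hom.id S, hS, fun k1 k2 => absurd ⟨k1, k2⟩ H⟩
      · exact hN S hS _ _ _ x) S₀ h₀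
  have hFL : FF ι L.G L.X := by
    intro g z hz H
    obtain ⟨S, hS, f, g', z', rfl, rfl⟩ := h1 g _ z
    rw [hF S hS g' z' (Injective.of_comp hz) (fun i => f.x.injective (by
      rw [f.eqv]; exact H i)), map_one]
  refine ⟨L, ⟨fun g x y => ?_, fun g z => ?_⟩, fun m d' R' a => h2 (some ⟨m, d', R'⟩) a,
    fun κ _ x => ?_, fun a b ha hab => ?_⟩
  · obtain ⟨S, hS, f, g', z', rfl, e⟩ := h1 g _ ![x, y]
    obtain rfl : f.x (z' 0) = x := congrFun e 0
    obtain rfl : f.x (z' 1) = y := congrFun e 1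
    rw [← f.eqv, ← f.eqv, f.hd, f.hd, (hI S hS).1]
  · obtain ⟨S, hS, f, g', z', rfl, rfl⟩ := h1 g _ z
    rw [f.hR, ← (hI S hS).2 g', ← f.hR]
    simp only [comp_def, f.eqv]
  · obtain ⟨S, hS, f, -, z', -, e⟩ := h1 1 _ x
    exact ⟨S, hS, f, z', e⟩
  · obtain ⟨g, hg⟩ := h2 none (Sum.elim a b) ha hab
    refine ⟨g, hg, fun g' hg' => ?_⟩
    refine (inv_mul_eq_one.1 (hFL (g⁻¹ * g') a ha (fun i => ?_))).symm
    rw [mul_smul, hg', inv_smul_eq_iff]
    exact (hg i).symm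

section fr
variable {G X : Type} [Group G] [MulAction G X]

theorem fix_sum {g : G} (h1 : g ≠ 1) {z : X ⊕ G} (h : g • z = z) : ∃ x, z = .inl x ∧ g • x = x := by
  cases z with
  | inl x => exact ⟨x, rfl, by simpa using h⟩
  | inr x => exact absurd (by simpa using h) h1

theorem FF.sum (h : FF ι G X) : FF ι G (X ⊕ G) := fun g z hz H => by
  by_contra h1
  choose x h2 h3 using fun i => fix_sum h1 (H i)
  exact h1 (h g x (fun i j e => hz (by rw [h2, h2, e])) h3)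

theorem TT.sum {k} (h : TT k G X) : TT k G (X ⊕ G) := fun g h1 ho z hz => by
  obtain ⟨x, rfl, hx⟩ := fix_sum h1 hz
  refine ⟨fun y hy => ?_, (h g h1 ho x hx).2⟩
  obtain ⟨x', rfl, hx'⟩ := fix_sum h1 hy
  rw [(h g h1 ho x hx).1 x' hx']

structure Met {X : Type} (d : X → X → ℚ) : Prop where
  zero : ∀ x y, d x y = 0 ↔ x = y
  symm : ∀ x y, d x y = d y x
  tri : ∀ x y z, d x z ≤ d x y + d y z

theorem Met.self {d : X → X → ℚ} (h : Met d) (x) : d x x = 0 := (h.zero x x).2 rfl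

theorem Met.nonneg {d : X → X → ℚ} (h : Met d) (x y) : 0 ≤ d x y := by
  have := h.tri x y x
  rw [h.self, h.symm y x] at this
  linarith

theorem Met.pos {d : X → X → ℚ} (h : Met d) {x y} (e : x ≠ y) : 0 < d x y :=
  lt_of_le_of_ne (h.nonneg x y) (fun e' => e ((h.zero x y).1 e'.symm))

theorem met_ext1 {d : X → X → ℚ} (h : Met d) (hi : ∀ (g : G) x y, d (g • x) (g • y) = d x y)
    (F : X → ℚ) (β : G → ℚ) (F1 : ∀ y z, F y ≤ d y z + F z) (F2 : ∀ y z, d y z ≤ F y + F z)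
    (F4 : ∀ y, 0 < F y) (b0 : ∀ u, β u = 0 ↔ u = 1) (b1 : ∀ u, β u⁻¹ = β u)
    (b2 : ∀ u v, β (u * v) ≤ β u + β v) (b3 : ∀ u x, β u ≤ F x + F (u⁻¹ • x))
    (b4 : ∀ u x, F x ≤ β u + F (u⁻¹ • x)) :
    ∃ d' : X ⊕ G → X ⊕ G → ℚ, Met d' ∧ (∀ (g : G) x y, d' (g • x) (g • y) = d' x y) ∧
      (∀ x y, d' (.inl x) (.inl y) = d x y) ∧ (∀ x, d' (.inr 1) (.inl x) = F x) ∧
      ∀ u, d' (.inr 1) (.inr u) = β u := by
  refine ⟨fun z w => match z, w with
    | .inl x, .inl y => d x y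
    | .inl x, .inr g => F (g⁻¹ • x)
    | .inr g, .inl x => F (g⁻¹ • x)
    | .inr g, .inr h => β (g⁻¹ * h), ⟨?_, ?_, ?_⟩, ?_, fun _ _ => rfl, by simp, by simp⟩
  · rintro (x | g) (y | g')
    · simp [h.zero]
    · simp [(F4 _).ne']
    · simp [(F4 _).ne']
    · simp [b0, inv_mul_eq_one]
  · rintro (x | g) (y | g')
    · exact h.symm _ _
    · rfl
    · rfl
    · simp only; rw [← b1]; simp
  · rintro (x | g) (y | g') (z | g'') <;> simp only
    · exact h.tri _ _ _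
    · rw [← hi g''⁻¹ x y]; exact F1 _ _
    · rw [← hi g'⁻¹ x z]; exact F2 _ _
    · have := b4 (g''⁻¹ * g') (g''⁻¹ • x)
      rw [← b1] at this
      simp only [mul_inv_rev, inv_inv, mul_smul, smul_inv_smul] at this
      linarith
    · have := F1 (g⁻¹ • z) (g⁻¹ • y)
      rw [hi, h.symm] at this
      linarith
    · have := b3 (g⁻¹ * g'') (g⁻¹ • y)
      simpa [mul_smul] using this
    · have := b4 (g⁻¹ * g') (g⁻¹ • z)
      simpa [mul_smul] using this
    · have := b2 (g⁻¹ * g') (g'⁻¹ * g'')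
      simpa [mul_assoc] using this
  · rintro u (x | g) (y | g') <;> simp [hi, mul_smul, mul_assoc]

theorem met_ext {d : X → X → ℚ} (h : Met d) (hi : ∀ (g : G) x y, d (g • x) (g • y) = d x y)
    {κ : Type} [Finite κ] [Nonempty κ] (a : κ → X) (f : κ → ℚ) (f0 : ∀ i, 0 < f i)
    (f1 : ∀ i j, d (a i) (a j) ≤ f i + f j) (f2 : ∀ i j, f i ≤ d (a i) (a j) + f j)
    (s : G) (hs : s * s = 1) (b : ℚ) (hb : 0 < b) (hsa : ∀ i, s • a i = a i) :
    ∃ d' : X ⊕ G → X ⊕ G → ℚ, Met d' ∧ (∀ (g : G) x y, d' (g • x) (g • y) = d' x y) ∧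
      (∀ x y, d' (.inl x) (.inl y) = d x y) ∧ (∀ i, d' (.inr 1) (.inl (a i)) = f i) ∧
      (s ≠ 1 → (∀ i j, b ≤ f i + f j) → d' (.inr 1) (.inr s) = b) := by
  classical
  choose I hI using fun y => Finite.exists_min (fun i => d y (a i) + f i)
  obtain ⟨F, hF⟩ : ∃ F : X → ℚ, ∀ y, F y = d y (a (I y)) + f (I y) := ⟨_, fun _ => rfl⟩
  have Fle : ∀ y i, F y ≤ d y (a i) + f i := fun y i => hF y ▸ hI y i
  have F1 : ∀ y z, F y ≤ d y z + F z := fun y z => by
    have := Fle y (I z); have := h.tri y z (a (I z)); rw [hF z]; linarith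
  have F2 : ∀ y z, d y z ≤ F y + F z := fun y z => by
    have := h.tri y (a (I y)) z; have := h.tri (a (I y)) (a (I z)) z
    have := f1 (I y) (I z); rw [hF y, hF z, h.symm z]; linarith
  have F3 : ∀ i, F (a i) = f i := fun i => le_antisymm (by simpa [h.self] using Fle (a i) i)
    (by rw [hF]; exact f2 _ _)
  have F4 : ∀ y, 0 < F y := fun y => by
    have := h.nonneg y (a (I y)); have := f0 (I y); rw [hF]; linarith
  have si : s⁻¹ = s := inv_eq_of_mul_eq_one_right hs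
  have F6 : ∀ y, F y ≤ F (s⁻¹ • y) := fun y => by
    rw [hF (s⁻¹ • y), ← hi s, hsa, smul_inv_smul]; exact Fle _ _
  choose K hK using fun u : G => Finite.exists_min (fun i => f i + F (u⁻¹ • a i))
  obtain ⟨fr, hfr⟩ : ∃ fr : G → ℚ, ∀ u, fr u = F (a (K u)) + F (u⁻¹ • a (K u)) := ⟨_, fun _ => rfl⟩
  have r1 : ∀ u x, fr u ≤ F x + F (u⁻¹ • x) := fun u x => by
    have := hK u (I x); have := F1 (u⁻¹ • a (I x)) (u⁻¹ • x)
    rw [hi, h.symm] at this; rw [hfr, F3, hF x]; linarith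
  have r2 : ∀ u, 0 < fr u := fun u => by rw [hfr]; exact add_pos (F4 _) (F4 _)
  have r3 : ∀ u, fr u⁻¹ ≤ fr u := fun u => by
    have := r1 u⁻¹ (u⁻¹ • a (K u)); rw [inv_inv, smul_inv_smul] at this; rw [hfr u]; linarith
  have r4 : ∀ u x, F x ≤ fr u + F (u⁻¹ • x) := fun u x => by
    have := F1 x (a (K u)); have := F2 (u⁻¹ • x) (u⁻¹ • a (K u))
    rw [hi] at this; rw [hfr]; linarith
  obtain ⟨β, hβ⟩ : ∃ β : G → ℚ, ∀ u, β u = if u = 1 then 0 else if u = s then min b (fr u)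
    else fr u := ⟨_, fun _ => rfl⟩
  have c0 : ∀ u, β u ≤ fr u := fun u => by
    rw [hβ]; split_ifs
    · exact (r2 u).le
    · exact min_le_right _ _
    · exact le_rfl
  have c1 : ∀ u, u ≠ 1 → 0 < β u := fun u hu => by
    rw [hβ, if_neg hu]; split_ifs
    · exact lt_min hb (r2 u)
    · exact r2 u
  have c2 : β 1 = 0 := by rw [hβ, if_pos rfl]
  have c3 : ∀ u, 0 ≤ β u := fun u => by
    by_cases hu : u = 1
    · rw [hu, c2]
    · exact (c1 u hu).le
  have b1 : ∀ u, β u⁻¹ = β u := fun u => by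
    have e : fr u⁻¹ = fr u := le_antisymm (r3 u) (by simpa using r3 u⁻¹)
    rw [hβ, hβ, e]
    simp only [inv_eq_iff_eq_inv, si, inv_one]
  have b4 : ∀ u x, F x ≤ β u + F (u⁻¹ • x) := fun u x => by
    rw [hβ]; split_ifs with h1 h2
    · simp [h1]
    · subst h2
      have := F6 x; have := r4 u x
      rcases min_choice b (fr u) with e | e <;> rw [e] <;> linarith
    · exact r4 u x
  have c4 : ∀ u, u = 1 ∨ u = s ∨ β u = fr u := fun u => by
    rw [hβ]; split_ifs <;> simp [*]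
  obtain ⟨d', k1, k2, k3, k4, k5⟩ := met_ext1 h hi F β F1 F2 F4
    (fun u => ⟨fun e => by_contra fun hu => (c1 u hu).ne' e, fun e => e ▸ c2⟩) b1 (fun u v => by
      have A : β v = fr v → β (u * v) ≤ β u + β v := fun e => by
        have := r1 (u * v) (u • a (K v)); have := b4 u (u • a (K v)); have := c0 (u * v)
        simp only [mul_inv_rev, mul_smul, inv_smul_smul] at *
        rw [e, hfr v]; linarith
      have B : β u = fr u → β (u * v) ≤ β u + β v := fun e => by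
        have := r1 (u * v) (a (K u)); have := b4 v⁻¹ (v⁻¹ • u⁻¹ • a (K u)); have := c0 (u * v)
        simp only [mul_inv_rev, mul_smul, inv_inv, smul_inv_smul, b1] at *
        rw [e, hfr u]; linarith
      rcases c4 u with rfl | rfl | e
      · simp [c2]
      · rcases c4 v with rfl | rfl | e
        · simp [c2]
        · rw [hs, c2]; exact add_nonneg (c3 _) (c3 _)
        · exact A e
      · exact B e) (fun u x => (c0 u).trans (r1 u x)) b4
  refine ⟨d', k1, k2, k3, fun i => (k4 _).trans (F3 i), fun h1 hb => ?_⟩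
  rw [k5, hβ, if_neg h1, if_pos rfl, min_eq_left]
  rw [hfr, si, hsa, F3]
  exact hb _ _

end fr

end Pool.Agent.H.MP_5b0e2c_al
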