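import Mathlib
import Pool.Agent.H.MP_5b0e2c_al.E

namespace Pool.Agent.H.MP_5b0e2c_al

open Function

def MetM : MT ℚ := fun d R => Met d ∧ ∀ z, R z

theorem pull_met : Pull MetM := fun _ _ _ hβ h =>
  ⟨⟨fun _ _ => (h.1.zero _ _).trans hβ.eq_iff, fun _ _ => h.1.symm _ _, fun _ _ _ => h.1.tri _ _ _⟩,
    fun _ => h.2 _⟩

theorem st_met {X Y κ : Type} {dY : Y → Y → ℚ} {RY} {dX : X → X → ℚ} {RX} (hY : MetM dY RY)
    (hX : MetM dX RX) {c : κ → Y} {a : κ → X} (h : ∀ i j, dY (c i) (c j) = dX (a i) (a j)) :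
    ST dY RY dX RX c a :=
  ⟨fun i j => ⟨h i j, by rw [← hY.1.zero, ← hX.1.zero, h]⟩, fun _ => iff_of_true (hY.2 _) (hX.2 _)⟩

def EqT (k : ℕ) (S : St ℚ) : Prop := ∀ q : ℚ, 0 < q → ∃ c : Fin k → S.X,
  (∀ i j, i ≠ j → S.d (c i) (c j) = q) ∧
    ∀ σ : Equiv.Perm (Fin k), ∃ g : S.G, ∀ i, g • c i = c (σ i)

theorem EqT.mono {k S S'} (f : Hom S S') (h : EqT k S) : EqT k S' := fun q hq => by
  obtain ⟨c, h1, h2⟩ := h q hq
  refine ⟨f.x ∘ c, fun i j e => (f.hd _ _).trans (h1 i j e), fun σ => ?_⟩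
  obtain ⟨g, hg⟩ := h2 σ
  exact ⟨f.g g, fun i => by simp only [comp_apply, ← f.eqv, hg]⟩

def PQ (k : ℕ) (S : St ℚ) : Prop := FF (Fin k) S.G S.X ∧ TT (Fintype.card (Fin k)) S.G S.X ∧
  Inv S ∧ MetM S.d S.R ∧ EqT k S

theorem hs_met (k : ℕ) [NeZero k] : HS (Fin k) (PQ k) := by
  rintro S ⟨hF, hT, hI, hM, hE⟩ a b ha hab hn hfull
  obtain ⟨D, hW, rfl, rfl⟩ := ex_HD hF (W := fun x m y => S.d x y ≤ m)
    ⟨fun h => (hM.1.nonneg _ _).trans h, fun x => (hM.1.self x).le,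
      fun h => (hM.1.symm _ _).trans_le h,
      fun h h' => (hM.1.tri _ _ _).trans (add_le_add h h'),
      fun h => (hM.1.zero _ _).1 (le_antisymm h (hM.1.nonneg _ _)),
      fun g _ _ _ h => (hI.1 g _ _).trans_le h⟩ ha (hab.inj ha)
    (fun i j m => by rw [(hab.1 i j).1]) hn hfull
  choose δ hδ using D.W1_min (fun x y => ⟨S.d x y, fun m => by rw [hW]⟩)
  have w := D.isW1
  have := D.cG
  have := D.cX
  have sy : ∀ x y, δ x y ≤ δ y x := fun x y => (hδ _ _ _).1 (w.symm ((hδ _ _ _).2 le_rfl))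
  have iv : ∀ (g : D.G1) x y, δ (g • x) (g • y) ≤ δ x y := fun g x y =>
    (hδ _ _ _).1 (w.inv g ((hδ _ _ _).2 le_rfl))
  let S' : St ℚ := { G := D.G1, X := D.X1, d := δ, R := fun _ => True }
  let f : Hom S S' := ⟨HNNExtension.of, ⟨D.j, D.j_inj⟩, fun g x => (D.of_j g x).symm,
    fun x y => eq_of_forall_ge_iff (fun m => by
      show δ (D.j x) (D.j y) ≤ m ↔ _
      rw [← hδ, D.W1_j, hW]), fun z => iff_of_true trivial (hM.2 z)⟩
  refine ⟨S', f, ⟨D.FF1 hF hT, D.TT1 hF hT, ⟨fun g x y => le_antisymm (iv g x y) ?_,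
    fun _ _ => Iff.rfl⟩, ⟨⟨fun x y => ⟨fun e => w.zero ((hδ _ _ _).2 e.le), ?_⟩,
    fun x y => le_antisymm (sy _ _) (sy _ _), fun x y z => (hδ _ _ _).1
      (w.trans ((hδ _ _ _).2 le_rfl) ((hδ _ _ _).2 le_rfl))⟩, fun _ => trivial⟩, hE.mono f⟩,
    _, fun i => D.t_j 1 i⟩
  · simpa using iv g⁻¹ (g • x) (g • y)
  · rintro rfl
    exact le_antisymm ((hδ _ _ _).1 (w.refl _)) (w.nonneg ((hδ _ _ _).2 le_rfl))

def sumSt {Λ : Type} (S : St Λ) (d : S.X ⊕ S.G → S.X ⊕ S.G → Λ)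
    (R : (Fin 4 → S.X ⊕ S.G) → Prop) : St Λ := { G := S.G, X := S.X ⊕ S.G, d := d, R := R }

def sumHom {Λ : Type} (S : St Λ) (d : S.X ⊕ S.G → S.X ⊕ S.G → Λ)
    (R : (Fin 4 → S.X ⊕ S.G) → Prop) (hd : ∀ x y, d (.inl x) (.inl y) = S.d x y)
    (hR : ∀ z, R (Sum.inl ∘ z) ↔ S.R z) : Hom S (sumSt S d R) :=
  ⟨MonoidHom.id _, ⟨Sum.inl, Sum.inl_injective⟩, fun _ _ => rfl, hd, hR⟩

theorem PQ.sum {k S} (h : PQ k S) {d : S.X ⊕ S.G → S.X ⊕ S.G → ℚ} (h1 : Met d)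
    (h2 : ∀ (g : S.G) x y, d (g • x) (g • y) = d x y)
    (h3 : ∀ x y, d (.inl x) (.inl y) = S.d x y) : PQ k (sumSt S d (fun _ => True)) :=
  ⟨h.1.sum, h.2.1.sum, ⟨h2, fun _ _ => Iff.rfl⟩, ⟨h1, fun _ => trivial⟩,
    h.2.2.2.2.mono (sumHom S d _ h3 (fun z => iff_of_true trivial (h.2.2.2.1.2 z)))⟩

theorem hn_met (k : ℕ) [NeZero k] (S) (hS : PQ k S) (m d' R') (a : Fin m → S.X) :
    ∃ S', ∃ f : Hom S S', PQ k S' ∧ ExtG MetM S'.d S'.R d' R' (f.x ∘ a) := by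
  have hM := hS.2.2.2.1
  by_cases H : MetM d' R' ∧ ST d' R' S.d S.R some a
  swap
  · exact ⟨S, Hom.id S, hS, fun k1 k2 => absurd ⟨k1, k2⟩ H⟩
  obtain ⟨H1, H2⟩ := H
  rcases Nat.eq_zero_or_pos m with rfl | hm
  · obtain ⟨c, -⟩ := hS.2.2.2.2 1 one_pos
    refine ⟨S, Hom.id S, hS, fun _ _ => ⟨c 0, st_met H1 hM ?_⟩⟩
    rintro (_ | i) (_ | j)
    · exact (H1.1.self _).trans (hM.1.self _).symm
    · exact j.elim0
    · exact i.elim0
    · exact i.elim0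
  · have : Nonempty (Fin m) := ⟨⟨0, hm⟩⟩
    obtain ⟨d, k1, k2, k3, k4, -⟩ := met_ext hM.1 hS.2.2.1.1 a (fun i => d' none (some i))
      (fun i => H1.1.pos (by simp)) (fun i j => by
        rw [← (H2.1 i j).1, H1.1.symm none]; exact H1.1.tri _ _ _) (fun i j => by
        rw [← (H2.1 i j).1, add_comm, H1.1.symm (some i)]; exact H1.1.tri _ _ _) 1 (by simp) 1
      one_pos (by simp)
    refine ⟨_, sumHom S d _ k3 (fun z => iff_of_true trivial (hM.2 z)), hS.sum k1 k2 k3,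
      fun _ _ => ⟨.inr 1, st_met H1 ⟨k1, fun _ => trivial⟩ ?_⟩⟩
    rintro (_ | i) (_ | j)
    · exact (H1.1.self _).trans (k1.self _).symm
    · exact (k4 j).symm
    · exact (H1.1.symm _ _).trans ((k4 i).symm.trans (k1.symm _ _))
    · exact (H2.1 i j).1.trans (k3 _ _).symm

def Bs {Λ ι : Type} (P : St Λ → Prop) (S : St Λ) (a : ι → S.X) : Prop :=
  ∃ S', ∃ _ : Hom S S', P S' ∧ ∃ c, ST S.d S.R S'.d S'.R a c ∧ Full S' c

theorem Bs.perm {Λ ι : Type} {P : St Λ → Prop} {S : St Λ} {a : ι → S.X} (π : Equiv.Perm ι)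
    (h : Bs P S (a ∘ π)) : Bs P S a := by
  obtain ⟨S', f, h1, c, h2, h3⟩ := h
  refine ⟨S', f, h1, c ∘ π.symm, ?_, fun σ hσ => ?_⟩
  · convert h2.comp π.symm using 1
    funext i; simp
  · obtain ⟨g, hg⟩ := h3 (π.trans (σ.trans π.symm)) (by
      have := hσ.comp π
      rwa [show (c ∘ π.symm) ∘ π = c from funext (by simp)] at this)
    exact ⟨g, fun i => by simpa using hg (π.symm i)⟩

theorem bs_eq {k S} (hS : PQ k S) {a : Fin k → S.X} {q : ℚ} (hq : 0 < q)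
    (h : ∀ i j, i ≠ j → S.d (a i) (a j) = q) : Bs (PQ k) S a := by
  have hM := hS.2.2.2.1
  obtain ⟨c, h1, h2⟩ := hS.2.2.2.2 q hq
  refine ⟨S, Hom.id S, hS, c, st_met hM hM (fun i j => ?_), fun σ _ => h2 σ⟩
  by_cases e : i = j
  · rw [e, hM.1.self, hM.1.self]
  · rw [h i j e, h1 i j e]

theorem hb2 (S) (hS : PQ 2 S) (a : Fin 2 → S.X) (ha : Injective a) : Bs (PQ 2) S a := by
  have hM := hS.2.2.2.1
  refine bs_eq hS (q := S.d (a 0) (a 1)) (hM.1.pos (ha.ne (by decide))) (fun i j e => ?_)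
  fin_cases i <;> fin_cases j <;> simp_all [hM.1.symm (a 1)]

theorem perm3 : ∀ σ : Equiv.Perm (Fin 3), (σ 0 = 0 ∧ σ 1 = 1 ∧ σ 2 = 2) ∨
    (σ 0 = 0 ∧ σ 1 = 2 ∧ σ 2 = 1) ∨ (σ 0 = 1 ∧ σ 1 = 0 ∧ σ 2 = 2) ∨ (σ 0 = 1 ∧ σ 1 = 2 ∧ σ 2 = 0) ∨
    (σ 0 = 2 ∧ σ 1 = 0 ∧ σ 2 = 1) ∨ (σ 0 = 2 ∧ σ 1 = 1 ∧ σ 2 = 0) := by decide

theorem bs_iso (S) (hS : PQ 3 S) (a : Fin 3 → S.X) (ha : Injective a)
    (h : S.d (a 0) (a 1) = S.d (a 0) (a 2)) : Bs (PQ 3) S a := by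
  have hM := hS.2.2.2.1
  have p1 : 0 < S.d (a 0) (a 1) := hM.1.pos (ha.ne (by decide))
  by_cases hne : S.d (a 1) (a 2) = S.d (a 0) (a 1)
  · refine bs_eq hS p1 (fun i j e => ?_)
    have := hM.1.symm (a 1) (a 0)
    have := hM.1.symm (a 2) (a 0)
    have := hM.1.symm (a 2) (a 1)
    fin_cases i <;> fin_cases j <;> simp_all
  obtain ⟨c, h1, h2⟩ := hS.2.2.2.2 1 one_pos
  have hc : Injective c := fun i j e => by_contra fun h => by
    have := h1 i j h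
    rw [e, hM.1.self] at this
    exact zero_ne_one this
  obtain ⟨s, hs⟩ := h2 (Equiv.swap 1 2)
  have s2 : s * s = 1 := by
    rw [← pow_two, pow_eq_one_perm hS.1 hc hs]; decide
  have s1 : s ≠ 1 := by
    rw [← pow_one s, Ne, pow_eq_one_perm hS.1 hc hs]; decide
  have s0 : s • c 0 = c 0 := hs 0
  obtain ⟨d, k1, k2, k3, k4, k5⟩ := met_ext hM.1 hS.2.2.1.1 (fun _ : Unit => c 0)
    (fun _ => S.d (a 0) (a 1)) (fun _ => p1) (fun _ _ => by rw [hM.1.self]; linarith)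
    (fun _ _ => by rw [hM.1.self]; linarith) s s2 (S.d (a 1) (a 2))
    (hM.1.pos (ha.ne (by decide))) (fun _ => s0)
  have e1 := k4 ()
  have e2 := k5 s1 (fun _ _ => by
    have := hM.1.tri (a 1) (a 0) (a 2)
    rw [hM.1.symm (a 1) (a 0)] at this
    linarith)
  have e3 : d (.inr s) (.inl (c 0)) = S.d (a 0) (a 1) := by
    rw [← e1, ← k2 s (.inr 1)]; simp [s0]
  have e4 := (k1.symm _ _).trans e1
  have e5 := (k1.symm _ _).trans e2
  have e6 := (k1.symm _ _).trans e3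
  refine ⟨_, sumHom S d _ k3 (fun z => iff_of_true trivial (hM.2 z)), hS.sum k1 k2 k3,
    ![.inl (c 0), .inr 1, .inr s], st_met hM ⟨k1, fun _ => trivial⟩ (fun i j => ?_),
    fun σ hσ => ?_⟩
  · have := hM.1.symm (a 1) (a 0)
    have := hM.1.symm (a 2) (a 0)
    have := hM.1.symm (a 2) (a 1)
    fin_cases i <;> fin_cases j <;> simp_all [sumSt, k1.self, hM.1.self]
  · have t := (hσ.1 1 2).1
    rcases perm3 σ with ⟨a0, a1, a2⟩ | ⟨a0, a1, a2⟩ | ⟨a0, a1, a2⟩ | ⟨a0, a1, a2⟩ | ⟨a0, a1, a2⟩ |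
      ⟨a0, a1, a2⟩
    · exact ⟨1, fun i => by fin_cases i <;> simp [a0, a1, a2]⟩
    · refine ⟨s, fun i => ?_⟩
      fin_cases i
      · exact (congrArg Sum.inl s0).trans (by simp [a0])
      · exact (congrArg Sum.inr (mul_one s)).trans (by simp [a1])
      · exact (congrArg Sum.inr s2).trans (by simp [a2])
    all_goals (simp [a1, a2, sumSt, e1, e2, e3, e4, e6, hne] at t)

theorem hb3 (S) (hS : PQ 3 S) (a : Fin 3 → S.X) (ha : Injective a) : Bs (PQ 3) S a := by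
  have hM := hS.2.2.2.1
  by_cases h0 : S.d (a 0) (a 1) = S.d (a 0) (a 2)
  · exact bs_iso S hS a ha h0
  by_cases h1 : S.d (a 1) (a 0) = S.d (a 1) (a 2)
  · exact Bs.perm (Equiv.swap 0 1) (bs_iso S hS _ (ha.comp (Equiv.injective _)) h1)
  by_cases h2 : S.d (a 2) (a 1) = S.d (a 2) (a 0)
  · exact Bs.perm (Equiv.swap 0 2) (bs_iso S hS _ (ha.comp (Equiv.injective _)) h2)
  refine ⟨S, Hom.id S, hS, a, ST.refl _, fun σ hσ => ?_⟩
  have t1 := (hσ.1 0 1).1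
  have t2 := (hσ.1 0 2).1
  have := hM.1.symm (a 1) (a 0)
  have := hM.1.symm (a 2) (a 0)
  have := hM.1.symm (a 2) (a 1)
  rcases perm3 σ with ⟨a0, a1, a2⟩ | ⟨a0, a1, a2⟩ | ⟨a0, a1, a2⟩ | ⟨a0, a1, a2⟩ | ⟨a0, a1, a2⟩ |
      ⟨a0, a1, a2⟩
  · exact ⟨1, fun i => by fin_cases i <;> simp [a0, a1, a2]⟩
  all_goals
    simp only [comp_apply, a0, a1, a2] at t1 t2
    exfalso
    first | exact h0 (by linarith) | exact h1 (by linarith) | exact h2 (by linarith)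

open Classical in
noncomputable def sdd {I N : Type} (l : N → ℚ) (p q : I × N) : ℚ :=
  if p = q then 0 else if p.2 = q.2 then l p.2 else l p.2 + l q.2

theorem star_met {I N : Type} {l : N → ℚ} (hl : ∀ y, 0 < l y) : Met (sdd (I := I) l) where
  zero p q := by
    have := hl p.2; have := hl q.2
    unfold sdd; split_ifs with h1 h2 <;> simp [h1] <;> linarith
  symm p q := by
    unfold sdd
    by_cases h1 : p = q
    · simp [h1]
    · by_cases h2 : p.2 = q.2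
      · simp [h1, Ne.symm h1, h2]
      · simp [h1, Ne.symm h1, h2, Ne.symm h2, add_comm]
  tri p q r := by
    have := hl p.2; have := hl q.2; have := hl r.2
    unfold sdd
    split_ifs <;> grind

noncomputable def S2 : St ℚ where
  G := Equiv.Perm (Fin 2)
  X := Fin 2 × ℚ
  act := { smul := fun σ p => (σ p.1, p.2), one_smul := fun _ => rfl, mul_smul := fun _ _ _ => rfl }
  d := sdd (fun q => if 0 < q then q else 1)
  R := fun _ => True

theorem sdd_inv {I N : Type} (l : N → ℚ) (f : I × N → I × N) (hf : Injective f)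
    (h1 : ∀ x, l (f x).2 = l x.2) (h2 : ∀ x y, (f x).2 = (f y).2 ↔ x.2 = y.2) (x y) :
    sdd l (f x) (f y) = sdd l x y := by
  have := h2 x y
  have := hf.eq_iff (a := x) (b := y)
  unfold sdd
  rw [h1, h1]
  split_ifs <;> grind

theorem s2_fix {g : S2.G} {x : S2.X} (h : g • x = x) : g = 1 := by
  have : ∀ (σ : Equiv.Perm (Fin 2)) i, σ i = i → σ = 1 := by decide
  exact this g x.1 (congrArg Prod.fst h)

theorem pq2 : PQ 2 S2 := by
  refine ⟨fun g z _ h => s2_fix (h 0), fun g h1 _ x hx => absurd (s2_fix hx) h1,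
    ⟨fun g x y => ?_, fun _ _ => Iff.rfl⟩, ⟨star_met (I := Fin 2) (l := fun q : ℚ => if 0 < q then q else 1) (fun y => ?_),
      fun _ => trivial⟩,
    fun q hq => ⟨fun i => (i, q), fun i j e => ?_, fun σ => ⟨σ, fun _ => rfl⟩⟩⟩
  · exact sdd_inv (I := Fin 2) (fun q : ℚ => if 0 < q then q else 1) (fun x : S2.X => g • x)
      (MulAction.injective (β := S2.X) g) (fun _ => rfl) (fun _ _ => Iff.rfl) x y
  · split_ifs with h
    · exact h
    · exact one_pos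
  · simp [S2, sdd, e, hq]

abbrev VV : Type := Fin 3 × (ℚ →₀ ℤ)

def G3 : Subgroup (Equiv.Perm VV) where
  carrier := {σ | ∃ v, (∀ x, σ x = x + (v + v)) ∨ ∀ x, σ x = -x + (v + v)}
  one_mem' := ⟨0, Or.inl (by simp)⟩
  mul_mem' := by
    rintro σ τ ⟨v, h | h⟩ ⟨w, h' | h'⟩
    · exact ⟨v + w, Or.inl fun x => by rw [Equiv.Perm.mul_apply, h, h']; abel⟩
    · exact ⟨v + w, Or.inr fun x => by rw [Equiv.Perm.mul_apply, h, h']; abel⟩
    · exact ⟨v - w, Or.inr fun x => by rw [Equiv.Perm.mul_apply, h, h']; abel⟩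
    · exact ⟨v - w, Or.inl fun x => by rw [Equiv.Perm.mul_apply, h, h']; abel⟩
  inv_mem' := by
    rintro σ ⟨v, h | h⟩
    · exact ⟨-v, Or.inl fun x => by rw [Equiv.Perm.inv_eq_iff_eq, h]; abel⟩
    · exact ⟨v, Or.inr fun x => by rw [Equiv.Perm.inv_eq_iff_eq, h]; abel⟩

instance : Countable G3 := by
  refine Set.Countable.to_subtype (s := (G3 : Set _)) (Set.Countable.mono ?_
    ((Set.countable_range (fun v : VV => Equiv.addRight (v + v))).union
      (Set.countable_range (fun v : VV => (Equiv.neg VV).trans (Equiv.addRight (v + v))))))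
  rintro σ ⟨v, h | h⟩
  · exact Or.inl ⟨v, Equiv.ext fun x => (h x).symm⟩
  · exact Or.inr ⟨v, Equiv.ext fun x => (h x).symm⟩

theorem vv_two {x y : VV} (h : x + x = y + y) : x = y := by
  have h1 : ∀ i j : Fin 3, i + i = j + j → i = j := by decide
  refine Prod.ext (h1 _ _ (congrArg Prod.fst h)) (Finsupp.ext fun q => ?_)
  have := congrArg (fun p : VV => p.2 q) h
  simp at this
  omega

noncomputable def md (y : ℚ →₀ ℤ) : ℚ →₀ ZMod 2 := Finsupp.mapRange (Int.cast) (by simp) y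

noncomputable def l3 (y : ℚ →₀ ℤ) : ℚ :=
  if 0 < (md y).support.sum id then (md y).support.sum id else 1

noncomputable def S3 : St ℚ where
  G := G3
  X := VV
  d := sdd l3
  R := fun _ => True

theorem s3_fix {g : G3} {x : VV} (h : g • x = x) : g = 1 ∨ (g * g = 1 ∧ ∀ y : VV, g • y = y → y = x) := by
  obtain ⟨σ, v, hv | hv⟩ := g
  · left
    have : σ x = x := h
    rw [hv, add_eq_left] at this
    exact Subtype.ext (Equiv.ext fun y => by simp [hv, this])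
  · right
    have k : ∀ y, σ y = y → y = v := fun y e => vv_two (by
      rw [hv] at e; exact (neg_add_eq_iff_eq_add.1 e).symm)
    exact ⟨Subtype.ext (Equiv.ext fun y => by simp [hv]; abel), fun y e => (k y e).trans (k x h).symm⟩

theorem pq3 : PQ 3 S3 := by
  refine ⟨fun g z hz h => ?_, fun g h1 _ x hx => ?_,
    ⟨fun g x y => ?_, fun _ _ => Iff.rfl⟩, ⟨star_met (I := Fin 3) (l := l3) (fun y => ?_), fun _ => trivial⟩,
    fun q hq => ⟨fun i => (i, Finsupp.single q 1), fun i j e => ?_, fun σ => ?_⟩⟩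
  · rcases s3_fix (h 0) with e | ⟨-, e⟩
    · exact e
    · exact absurd (hz (e _ (h 1))) (by decide)
  · obtain ⟨e1, e2⟩ := (s3_fix hx).resolve_left h1
    refine ⟨e2, fun l hl hd e => h1 ?_⟩
    obtain rfl : l = 3 := (Nat.prime_dvd_prime_iff_eq hl (by norm_num)).1 (by simpa using hd)
    have e1' : g * g = 1 := e1
    rwa [pow_succ, pow_two, e1', one_mul] at e
  · obtain ⟨σ, v, hv⟩ := g
    refine sdd_inv l3 σ σ.injective (fun x => ?_) (fun x y => ?_) x y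
    · have : md (σ x).2 = md x.2 := by
        rcases hv with hv | hv <;> ext q <;> simp [md, hv, CharTwo.add_self_eq_zero]
      simp only [l3, this]
    · rcases hv with hv | hv <;> simp [hv]
  · unfold l3
    split_ifs with h
    · exact h
    · exact one_pos
  · have : (md (Finsupp.single q 1)).support = {q} := by
      rw [md, Finsupp.mapRange_single]
      exact Finsupp.support_single _ (by simp)
    simp [S3, sdd, e, l3, this, hq]
  · have : ∀ σ : Equiv.Perm (Fin 3), ∃ j, (∀ i, σ i = i + (j + j)) ∨ ∀ i, σ i = -i + (j + j) := by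
      decide
    obtain ⟨j, h | h⟩ := this σ
    · refine ⟨⟨Equiv.addRight ((j, 0) + (j, 0)), (j, 0), Or.inl fun _ => rfl⟩, fun i => ?_⟩
      show ((i, Finsupp.single q 1) : VV) + ((j, 0) + (j, 0)) = (σ i, Finsupp.single q 1)
      simp [h]
    · refine ⟨⟨(Equiv.neg VV).trans (Equiv.addRight ((j, Finsupp.single q 1) +
        (j, Finsupp.single q 1))), (j, Finsupp.single q 1), Or.inr fun _ => rfl⟩, fun i => ?_⟩
      show -((i, Finsupp.single q 1) : VV) + ((j, Finsupp.single q 1) + (j, Finsupp.single q 1)) =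
        (σ i, Finsupp.single q 1)
      simp [h]

theorem main (k : ℕ) (hk : k = 2 ∨ k = 3) : ∃ L : St ℚ, Inv L ∧ MetM L.d L.R ∧
    (∀ m d' R' (a : Fin m → L.X), ExtG MetM L.d L.R d' R' a) ∧
    ∀ a b : Fin k → L.X, Injective a → ST L.d L.R L.d L.R a b → ∃! g : L.G, ∀ i, g • a i = b i := by
  have : ∃ S, PQ k S ∧ ∀ S, PQ k S → ∀ a : Fin k → S.X, Injective a → Bs (PQ k) S a := by
    rcases hk with rfl | rfl
    · exact ⟨_, pq2, hb2⟩
    · exact ⟨_, pq3, hb3⟩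
  obtain ⟨S₀, h₀, hB⟩ := this
  have : NeZero k := ⟨by omega⟩
  obtain ⟨L, h1, h2, h3, h4⟩ := build (Mod := MetM) (fun S hS => hS.2.2.1) (fun S hS => hS.1)
    (hs_met k) hB (hn_met k) S₀ h₀
  refine ⟨L, h1, ⟨⟨fun x y => ?_, fun x y => ?_, fun x y z => ?_⟩, fun z => ?_⟩, h2, h4⟩
  · obtain ⟨S, hS, f, w, e⟩ := h3 _ ![x, y]
    obtain rfl : f.x (w 0) = x := congrFun e 0
    obtain rfl : f.x (w 1) = y := congrFun e 1
    rw [f.hd, hS.2.2.2.1.1.zero, f.x.injective.eq_iff]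
  · obtain ⟨S, hS, f, w, e⟩ := h3 _ ![x, y]
    obtain rfl : f.x (w 0) = x := congrFun e 0
    obtain rfl : f.x (w 1) = y := congrFun e 1
    rw [f.hd, f.hd, hS.2.2.2.1.1.symm]
  · obtain ⟨S, hS, f, w, e⟩ := h3 _ ![x, y, z]
    obtain rfl : f.x (w 0) = x := congrFun e 0
    obtain rfl : f.x (w 1) = y := congrFun e 1
    obtain rfl : f.x (w 2) = z := congrFun e 2
    rw [f.hd, f.hd, f.hd]
    exact hS.2.2.2.1.1.tri _ _ _
  · obtain ⟨S, hS, f, w, rfl⟩ := h3 _ z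
    exact (f.hR w).2 (hS.2.2.2.1.2 w)

end Pool.Agent.H.MP_5b0e2c_al
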